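import Pool.Agent.DualAP.Select

namespace Pool.Agent.DualAP

variable {𝕜 : Type*} [RCLike 𝕜] {E : Type*} [NormedAddCommGroup E] [NormedSpace 𝕜 E]

lemma ann_smul (Γ : Submodule 𝕜 (StrongDual 𝕜 E)) {r : E} (hr : Ann Γ r) (c : 𝕜) :
    Ann Γ (c • r) := by
  intro f hf
  rw [map_smul, hr f hf, smul_zero]

/-- The operators supplied by the approximation property of the renormings. -/
lemma exists_operator {lam : ℝ} (hlam : 1 ≤ lam) (h : RenormedAP 𝕜 E lam)
    (Γ : Submodule 𝕜 (StrongDual 𝕜 E)) [hΓ : FiniteDimensional 𝕜 Γ] {β : ℝ} (hβ : 0 < β)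
    {ε : ℝ} (hε : 0 < ε) :
    ∃ u : E →L[𝕜] E, FiniteDimensional 𝕜 (LinearMap.range (u : E →ₗ[𝕜] E)) ∧
      (∀ r, Ann Γ r → ‖u r‖ ≤ lam * ‖r‖) ∧
      ‖u‖ ≤ (lam + 2 * β * (1 + 2 * lam)) / (1 + 2 * β) + ε ∧
      ∀ f ∈ Γ, ‖f.comp u - f‖ ≤ ((lam - 1) / (2 * β) + ε) * ‖f‖ := by
  have hlam0 : 0 ≤ lam := by linarith
  -- the small parameter
  obtain ⟨e, he0, he1, heB, heC⟩ : ∃ e : ℝ, 0 < e ∧ e ≤ 1 ∧ e * (2 + lam) ≤ ε ∧
      e * (1 + (4 * lam + 2) / (4 * β)) ≤ ε := by
    set M : ℝ := 3 + lam + (4 * lam + 2) / (4 * β) with hM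
    have h2 : 0 < (4 * lam + 2) / (4 * β) := by positivity
    have hMpos : 0 < M := by rw [hM]; linarith
    have h3 : min 1 (ε / M) * M ≤ ε := by
      calc min 1 (ε / M) * M ≤ (ε / M) * M := by gcongr; exact min_le_right _ _
        _ = ε := div_mul_cancel₀ _ hMpos.ne'
    have h4 : 0 < min 1 (ε / M) := lt_min one_pos (div_pos hε hMpos)
    refine ⟨min 1 (ε / M), h4, min_le_left _ _, ?_, ?_⟩
    · refine (mul_le_mul_of_nonneg_left ?_ h4.le).trans h3
      rw [hM]; linarith
    · refine (mul_le_mul_of_nonneg_left ?_ h4.le).trans h3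
      rw [hM]; linarith
  obtain ⟨K, hK, hKn, hKs⟩ := exists_compact_select Γ he0
  have hb : 0 < 1 + 4 * β := by linarith
  obtain ⟨u, hfin, hu, huK⟩ := h Γ hΓ β hβ K hK (e / (1 + 4 * β)) (by positivity)
  have huK' : ∀ y ∈ K, ‖u y - y‖ ≤ e := by
    intro y hy
    refine (norm_le_newNorm Γ hβ _).trans ?_
    have := (huK y hy).le
    rw [le_div_iff₀ hb] at this
    linarith
  refine ⟨u, hfin, fun r hr => ann_bound Γ hβ hlam0 hu hr, ?_, ?_⟩
  · -- norm bound
    set B : ℝ := (lam + 2 * β * (1 + 2 * lam)) / (1 + 2 * β) with hB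
    have hB0 : 0 ≤ B := by positivity
    refine u.opNorm_le_of_unit_norm (by linarith) ?_ |>.trans (le_refl _)
    intro x hx
    obtain ⟨y, hyK, hr⟩ := hKs x hx.le
    obtain ⟨f, hf, hfx⟩ := exists_dual_vector'' 𝕜 (u x)
    have hA : ‖f (u x)‖ = ‖u x‖ := by
      rw [hfx, RCLike.norm_ofReal, abs_of_nonneg (norm_nonneg _)]
    have hyn := hKn y hyK
    have hrn : ‖x - y‖ ≤ 2 + e := by
      have := norm_sub_le x y
      linarith
    have h1 : ‖f (u x)‖ ≤ 1 + 2 * e + ‖f (u (x - y))‖ := by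
      have h2 : f (u x) = f (u y) + f (u (x - y)) := by
        rw [← map_add, ← map_add]; congr 2; abel
      have h3 : ‖f (u y)‖ ≤ 1 + 2 * e := by
        have h4 : ‖f (u y)‖ ≤ ‖f‖ * ‖u y‖ := f.le_opNorm _
        have h5 : ‖u y‖ ≤ ‖u y - y‖ + ‖y‖ := by
          have := norm_add_le (u y - y) y
          simpa using this
        have h6 := huK' y hyK
        have h7 : ‖f‖ * ‖u y‖ ≤ 1 * ‖u y‖ := by gcongr
        linarith
      rw [h2]
      exact (norm_add_le _ _).trans (by linarith)
    have h2 := key_ineq Γ hβ hlam0 hu f (x := ((2 + e : ℝ) : 𝕜) • x) (r := x - y) hr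
      (c := 2 + e) (by
        rw [norm_smul, RCLike.norm_ofReal, abs_of_pos (by linarith), hx, mul_one]) hrn
    have h3 : ‖f (u (((2 + e : ℝ) : 𝕜) • x))‖ = (2 + e) * ‖f (u x)‖ := by
      rw [map_smul, map_smul, smul_eq_mul, norm_mul, RCLike.norm_ofReal,
        abs_of_pos (by linarith)]
    rw [h3] at h2
    have h4 : dualNorm Γ β f ≤ 1 + 4 * β := by
      have := dualNorm_le Γ hβ f
      nlinarith
    have h5 : lam * dualNorm Γ β f * (2 + e) ≤ lam * (1 + 4 * β) * (2 + e) := by gcongr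
    rw [hA] at h1 h2
    set A := ‖u x‖
    set ρ := ‖f (u (x - y))‖
    have hA0 : 0 ≤ A := norm_nonneg _
    have h6 : A * (4 * β + 2) ≤ 4 * β * (1 + 2 * e) + lam * (1 + 4 * β) * (2 + e) := by
      nlinarith [mul_le_mul_of_nonneg_left h1 (by linarith : (0:ℝ) ≤ 4 * β),
        mul_nonneg he0.le hA0]
    have h7 : 4 * β * (1 + 2 * e) + lam * (1 + 4 * β) * (2 + e) ≤
        (B + e * (2 + lam)) * (4 * β + 2) := by
      have h8 : B * (4 * β + 2) = 2 * (lam + 2 * β * (1 + 2 * lam)) := by
        rw [hB]; field_simp; ring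
      nlinarith [mul_nonneg he0.le hlam0, mul_nonneg he0.le hβ.le]
    have h8 : A ≤ B + e * (2 + lam) :=
      le_of_mul_le_mul_right (h6.trans h7) (by linarith)
    linarith
  · -- the adjoint is nearly the identity on `Γ`
    intro f hf
    have hann : ∀ r, Ann Γ r → 4 * β * ‖f (u r)‖ ≤ (lam - 1 + e * (lam + 1)) * ‖f‖ * ‖r‖ := by
      have hone : ∀ r, Ann Γ r → ‖r‖ ≤ 1 →
          4 * β * ‖f (u r)‖ ≤ (lam - 1 + e * (lam + 1)) * ‖f‖ := by
        intro r hr hr1
        have hsup : ‖f‖ ≤ lam * ‖f‖ * (1 + e) + e * ‖f‖ - 4 * β * ‖f (u r)‖ := by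
          refine f.opNorm_le_of_unit_norm ?_ ?_
          · have h2 := key_ineq Γ hβ hlam0 hu f (x := 0) (r := r) hr (c := 1 + e)
              (by simp; linarith) (by linarith)
            rw [dualNorm_of_mem Γ hf] at h2
            simp only [map_zero, norm_zero, zero_add] at h2
            have : 0 ≤ e * ‖f‖ := by positivity
            linarith
          · intro x hx
            obtain ⟨y, hyK, hry⟩ := hKs x hx.le
            have h2 := key_ineq Γ hβ hlam0 hu f (x := y) (r := r) hr (c := 1 + e)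
              (hKn y hyK) (by linarith)
            rw [dualNorm_of_mem Γ hf] at h2
            have h3 : f x = f y := by
              have := hry f hf
              rw [map_sub, sub_eq_zero] at this
              exact this
            have h4 : ‖f y‖ ≤ ‖f (u y)‖ + e * ‖f‖ := by
              have h5 : ‖f (u y - y)‖ ≤ ‖f‖ * e :=
                (f.le_opNorm _).trans (by gcongr; exact huK' y hyK)
              have h6 : ‖f y‖ ≤ ‖f (u y)‖ + ‖f (u y - y)‖ := by
                have := norm_sub_le (f (u y)) (f (u y - y))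
                rw [← map_sub] at this
                simpa using this
              linarith
            rw [h3]
            linarith
        linarith
      intro r hr
      rcases (norm_nonneg r).eq_or_lt with h0 | h0
      · have : r = 0 := by rw [← norm_eq_zero]; exact h0.symm
        subst this; simp
      · have h2 := hone (((‖r‖⁻¹ : ℝ) : 𝕜) • r) (ann_smul Γ hr _) (by
          rw [norm_smul, RCLike.norm_ofReal, abs_of_pos (inv_pos.mpr h0),
            inv_mul_cancel₀ h0.ne'])
        rw [map_smul, map_smul, smul_eq_mul, norm_mul, RCLike.norm_ofReal,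
          abs_of_pos (inv_pos.mpr h0)] at h2
        have h3 : 4 * β * (‖r‖⁻¹ * ‖f (u r)‖) = (4 * β * ‖f (u r)‖) / ‖r‖ := by
          field_simp
        rw [h3, div_le_iff₀ h0] at h2
        exact h2
    refine ContinuousLinearMap.opNorm_le_of_unit_norm ?_ ?_
    · have : 0 ≤ (lam - 1) / (2 * β) := div_nonneg (by linarith) (by linarith)
      positivity
    · intro x hx
      obtain ⟨y, hyK, hr⟩ := hKs x hx.le
      have hrn : ‖x - y‖ ≤ 2 + e := by
        have := norm_sub_le x y
        have := hKn y hyK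
        linarith
      have h1 : (f.comp u - f) x = f (u y - y) + f (u (x - y)) := by
        have h2 := hr f hf
        rw [map_sub, sub_eq_zero] at h2
        rw [sub_apply, ContinuousLinearMap.comp_apply, h2, ← map_add, ← map_sub]
        congr 1
        rw [map_sub]
        abel
      rw [h1]
      have h2 : ‖f (u y - y)‖ ≤ e * ‖f‖ := by
        have := (f.le_opNorm (u y - y)).trans
          (mul_le_mul_of_nonneg_left (huK' y hyK) (norm_nonneg f))
        linarith
      have h3 := hann (x - y) hr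
      have h4 : (lam - 1 + e * (lam + 1)) * ‖f‖ * ‖x - y‖ ≤
          (lam - 1 + e * (lam + 1)) * ‖f‖ * (2 + e) := by
        have : 0 ≤ (lam - 1 + e * (lam + 1)) := by nlinarith
        gcongr
      have h5 : ‖f (u (x - y))‖ ≤ (lam - 1 + e * (lam + 1)) * ‖f‖ * (2 + e) / (4 * β) := by
        rw [le_div_iff₀ (by linarith)]
        linarith
      have h6 : (lam - 1 + e * (lam + 1)) * (2 + e) ≤
          2 * (lam - 1) + e * (4 * lam + 2) := by
        nlinarith [mul_nonneg he0.le hlam0]
      have h7 : (lam - 1 + e * (lam + 1)) * ‖f‖ * (2 + e) / (4 * β) ≤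
          (2 * (lam - 1) + e * (4 * lam + 2)) / (4 * β) * ‖f‖ := by
        rw [div_mul_eq_mul_div]
        refine div_le_div_of_nonneg_right ?_ (by linarith)
        calc (lam - 1 + e * (lam + 1)) * ‖f‖ * (2 + e)
            = ((lam - 1 + e * (lam + 1)) * (2 + e)) * ‖f‖ := by ring
          _ ≤ _ := by gcongr
      have h8 : (2 * (lam - 1) + e * (4 * lam + 2)) / (4 * β) =
          (lam - 1) / (2 * β) + e * ((4 * lam + 2) / (4 * β)) := by
        field_simp; ring
      calc ‖f (u y - y) + f (u (x - y))‖ ≤ ‖f (u y - y)‖ + ‖f (u (x - y))‖ := norm_add_le _ _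
        _ ≤ e * ‖f‖ + ((lam - 1) / (2 * β) + e * ((4 * lam + 2) / (4 * β))) * ‖f‖ := by
            rw [h8] at h7
            linarith
        _ = ((lam - 1) / (2 * β) + e * (1 + (4 * lam + 2) / (4 * β))) * ‖f‖ := by ring
        _ ≤ ((lam - 1) / (2 * β) + ε) * ‖f‖ := by gcongr

end Pool.Agent.DualAP
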