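import Pool.Agent.DualAP.Pass
import Pool.Agent.DualAP.Oper

namespace Pool.Agent.DualAP

variable {𝕜 : Type*} [RCLike 𝕜] {E : Type*} [NormedAddCommGroup E] [NormedSpace 𝕜 E]

/-- The amplification data: finitely many operators `C i`, `D i`, `J s` on `E`. -/
structure AmpData (𝕜 : Type*) [RCLike 𝕜] (E : Type*) [NormedAddCommGroup E] [NormedSpace 𝕜 E]
    (ι σ : Type) [Fintype ι] [Fintype σ] (κ δ : ℝ) where
  C : ι → E →L[𝕜] E
  D : ι → E →L[𝕜] E
  J : σ → E →L[𝕜] E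
  a : ι → σ → 𝕜
  c : ι → ι → 𝕜
  ω : ι → ℝ
  comp_eq : ∀ i l x, C i (D l x) = c i l • x
  trace_eq : ∑ i, (ω i : 𝕜) * c i i = 1
  annih : ∀ s l, ∑ i, (ω i : 𝕜) * (a i s * c i l) = 0
  ω_nonneg : ∀ i, 0 ≤ ω i
  ω_sum : ∑ i, ω i = 1
  C_norm : ∀ i, ‖C i‖ ≤ κ
  D_norm : ∀ i, ‖D i‖ ≤ 1
  small : ∀ i x, ‖D i x + ∑ s, a i s • J s x‖ ≤ δ * ‖x‖

lemma finite_sum_comp {ι : Type} [Fintype ι] (C D : ι → E →L[𝕜] E) (ω : ι → 𝕜)
    (u : E →L[𝕜] E) (hu : FiniteDimensional 𝕜 (LinearMap.range (u : E →ₗ[𝕜] E))) :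
    FiniteDimensional 𝕜 (LinearMap.range
      ((∑ i, ω i • (C i).comp (u.comp (D i)) : E →L[𝕜] E) : E →ₗ[𝕜] E)) := by
  have hle : LinearMap.range
      ((∑ i, ω i • (C i).comp (u.comp (D i)) : E →L[𝕜] E) : E →ₗ[𝕜] E) ≤
      ⨆ i, (LinearMap.range (u : E →ₗ[𝕜] E)).map (C i : E →ₗ[𝕜] E) := by
    rintro _ ⟨x, rfl⟩
    have : ((∑ i, ω i • (C i).comp (u.comp (D i)) : E →L[𝕜] E) : E →ₗ[𝕜] E) x =
        ∑ i, ω i • C i (u (D i x)) := by
      simp [sum_apply]
    rw [this]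
    refine Submodule.sum_mem _ fun i _ => Submodule.smul_mem _ _ ?_
    refine Submodule.mem_iSup_of_mem i ?_
    exact ⟨u (D i x), ⟨D i x, rfl⟩, rfl⟩
  exact Submodule.finiteDimensional_of_le hle

/-- The amplification step. -/
lemma amplify_step {lam : ℝ} (hlam : 1 ≤ lam) (h : RenormedAP 𝕜 E lam)
    (Γ₀ : Submodule 𝕜 (StrongDual 𝕜 E)) [FiniteDimensional 𝕜 Γ₀]
    {ι σ : Type} [Fintype ι] [Fintype σ] {κ δ : ℝ} (hκ : 0 ≤ κ) (hδ : 0 ≤ δ)
    (d : AmpData 𝕜 E ι σ κ δ) {ε : ℝ} (hε : 0 < ε) :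
    ∃ v : E →L[𝕜] E, FiniteDimensional 𝕜 (LinearMap.range (v : E →ₗ[𝕜] E)) ∧
      ‖v‖ ≤ κ * lam ∧
      ∀ g ∈ Γ₀, ‖g.comp v - g‖ ≤ (κ * (2 * lam + 3) * δ + ε) * ‖g‖ := by
  have hlam0 : 0 ≤ lam := by linarith
  set Γ₁ : Submodule 𝕜 (StrongDual 𝕜 E) :=
    ⨆ i, Γ₀.map (adj (d.C i) : StrongDual 𝕜 E →ₗ[𝕜] StrongDual 𝕜 E) with hΓ₁
  set Γ : Submodule 𝕜 (StrongDual 𝕜 E) :=
    Γ₁ ⊓ ⨅ l, LinearMap.ker (adj (d.D l) : StrongDual 𝕜 E →ₗ[𝕜] StrongDual 𝕜 E) with hΓ
  have hΓ₁fin : FiniteDimensional 𝕜 Γ₁ := by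
    rw [hΓ₁]; infer_instance
  have hΓfin : FiniteDimensional 𝕜 Γ := Submodule.finiteDimensional_of_le inf_le_left
  have hAnn : ∀ l x, Ann Γ (d.D l x) := by
    intro l x f hf
    have h1 := (Submodule.mem_iInf _).mp (Submodule.mem_inf.mp hf).2 l
    have h2 : adj (d.D l) f = 0 := h1
    have := congrArg (fun φ : StrongDual 𝕜 E => φ x) h2
    simpa using this
  set G : σ → ℝ := fun s => ∑ i, d.ω i * (‖d.a i s‖ * ‖d.C i‖) with hG
  have hG0 : ∀ s, 0 ≤ G s := fun s =>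
    Finset.sum_nonneg fun i _ => mul_nonneg (d.ω_nonneg i) (by positivity)
  set M : ℝ := ∑ s, G s * ‖d.J s‖ with hM
  have hM0 : 0 ≤ M := Finset.sum_nonneg fun s _ => mul_nonneg (hG0 s) (norm_nonneg _)
  set θ : ℝ := ε / (2 * (M + 1)) with hθ
  have hθ0 : 0 < θ := by positivity
  have hβ0 : 0 < lam / (2 * θ) := by positivity
  obtain ⟨u, hufin, huann, hun, huΓ⟩ := exists_operator hlam h Γ (β := lam / (2 * θ)) hβ0
    (ε := min 1 θ) (lt_min one_pos hθ0)
  have hun' : ‖u‖ ≤ 2 * lam + 2 := by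
    refine hun.trans ?_
    have h1 : min 1 θ ≤ 1 := min_le_left _ _
    have h2 : (lam + 2 * (lam / (2 * θ)) * (1 + 2 * lam)) / (1 + 2 * (lam / (2 * θ))) ≤
        2 * lam + 1 := by
      rw [div_le_iff₀ (by positivity)]
      nlinarith
    linarith
  have huΓ' : ∀ f ∈ Γ, ‖f.comp u - f‖ ≤ 2 * θ * ‖f‖ := by
    intro f hf
    refine (huΓ f hf).trans ?_
    have h1 : min 1 θ ≤ θ := min_le_right _ _
    have h2 : (lam - 1) / (2 * (lam / (2 * θ))) ≤ θ := by
      rw [div_le_iff₀ (by positivity)]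
      have : θ * (2 * (lam / (2 * θ))) = lam := by field_simp
      rw [this]; linarith
    gcongr
    linarith
  refine ⟨∑ i, (d.ω i : 𝕜) • (d.C i).comp (u.comp (d.D i)),
    finite_sum_comp d.C d.D (fun i => (d.ω i : 𝕜)) u hufin, ?_, ?_⟩
  · refine ContinuousLinearMap.opNorm_le_bound _ (by positivity) fun x => ?_
    rw [sum_apply]
    refine (norm_sum_le _ _).trans ?_
    have hi : ∀ i ∈ Finset.univ, ‖((d.ω i : 𝕜) • (d.C i).comp (u.comp (d.D i))) x‖ ≤
        d.ω i * (κ * lam * ‖x‖) := by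
      intro i _
      rw [smul_apply, norm_smul, RCLike.norm_ofReal, abs_of_nonneg (d.ω_nonneg i)]
      refine mul_le_mul_of_nonneg_left ?_ (d.ω_nonneg i)
      calc ‖d.C i (u (d.D i x))‖ ≤ ‖d.C i‖ * ‖u (d.D i x)‖ := (d.C i).le_opNorm _
        _ ≤ κ * (lam * (1 * ‖x‖)) := by
            refine mul_le_mul (d.C_norm i) ?_ (norm_nonneg _) hκ
            refine (huann _ (hAnn i x)).trans ?_
            gcongr
            exact ((d.D i).le_opNorm x).trans (by gcongr; exact d.D_norm i)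
        _ = κ * lam * ‖x‖ := by ring
    refine (Finset.sum_le_sum hi).trans ?_
    rw [← Finset.sum_mul, d.ω_sum, one_mul]
  · intro g hg
    refine ContinuousLinearMap.opNorm_le_bound _ (by positivity) fun x => ?_
    -- the two parts of the error
    set γ : σ → StrongDual 𝕜 E := fun s => ∑ i, ((d.ω i : 𝕜) * d.a i s) • g.comp (d.C i) with hγ
    have hγapp : ∀ s y, γ s y = ∑ i, ((d.ω i : 𝕜) * d.a i s) * g (d.C i y) := by
      intro s y
      simp [hγ, sum_apply]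
    have hγΓ : ∀ s, γ s ∈ Γ := by
      intro s
      refine Submodule.mem_inf.mpr ⟨?_, ?_⟩
      · refine Submodule.sum_mem _ fun i _ => Submodule.smul_mem _ _ ?_
        refine Submodule.mem_iSup_of_mem i ?_
        exact ⟨g, hg, rfl⟩
      · refine (Submodule.mem_iInf _).mpr fun l => ?_
        have : adj (d.D l) (γ s) = 0 := by
          ext y
          rw [adj_apply, ContinuousLinearMap.comp_apply, hγapp]
          have h1 : ∀ i ∈ Finset.univ, ((d.ω i : 𝕜) * d.a i s) * g (d.C i (d.D l y)) =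
              ((d.ω i : 𝕜) * (d.a i s * d.c i l)) * g y := by
            intro i _
            rw [d.comp_eq, map_smul, smul_eq_mul]; ring
          rw [Finset.sum_congr rfl h1, ← Finset.sum_mul, d.annih, zero_mul]
          simp
        exact this
    have hγn : ∀ s, ‖γ s‖ ≤ G s * ‖g‖ := by
      intro s
      refine ContinuousLinearMap.opNorm_le_bound _ (mul_nonneg (hG0 s) (norm_nonneg _)) fun y => ?_
      rw [hγapp]
      refine (norm_sum_le _ _).trans ?_
      rw [hG]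
      simp only
      rw [Finset.sum_mul, Finset.sum_mul]
      refine Finset.sum_le_sum fun i _ => ?_
      rw [norm_mul, norm_mul, RCLike.norm_ofReal, abs_of_nonneg (d.ω_nonneg i)]
      have h1 : ‖g (d.C i y)‖ ≤ ‖g‖ * (‖d.C i‖ * ‖y‖) :=
        (g.le_opNorm _).trans (by gcongr; exact (d.C i).le_opNorm _)
      have h2 : 0 ≤ d.ω i * ‖d.a i s‖ := mul_nonneg (d.ω_nonneg i) (norm_nonneg _)
      calc d.ω i * ‖d.a i s‖ * ‖g (d.C i y)‖
          ≤ d.ω i * ‖d.a i s‖ * (‖g‖ * (‖d.C i‖ * ‖y‖)) := by gcongr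
        _ = _ := by ring
    have hsplit : (g.comp (∑ i, (d.ω i : 𝕜) • (d.C i).comp (u.comp (d.D i))) - g) x =
        (∑ i, (d.ω i : 𝕜) * g (d.C i (u (d.D i x + ∑ s, d.a i s • d.J s x) -
          (d.D i x + ∑ s, d.a i s • d.J s x)))) -
        ∑ s, ((γ s).comp u - γ s) (d.J s x) := by
      have h1 : (g.comp (∑ i, (d.ω i : 𝕜) • (d.C i).comp (u.comp (d.D i))) - g) x =
          (∑ i, (d.ω i : 𝕜) * g (d.C i (u (d.D i x)))) - g x := by
        simp [sum_apply, map_sum]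
      have h2 : g x = ∑ i, (d.ω i : 𝕜) * g (d.C i (d.D i x)) := by
        have h3 : ∀ i ∈ Finset.univ, (d.ω i : 𝕜) * g (d.C i (d.D i x)) =
            ((d.ω i : 𝕜) * d.c i i) * g x := by
          intro i _
          rw [d.comp_eq, map_smul, smul_eq_mul]; ring
        rw [Finset.sum_congr rfl h3, ← Finset.sum_mul, d.trace_eq, one_mul]
      have h4 : ∑ s, ((γ s).comp u - γ s) (d.J s x) =
          ∑ i, (d.ω i : 𝕜) * g (d.C i (u (∑ s, d.a i s • d.J s x) -
            ∑ s, d.a i s • d.J s x)) := by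
        have h5 : ∀ s ∈ Finset.univ, ((γ s).comp u - γ s) (d.J s x) =
            ∑ i, (d.ω i : 𝕜) * (d.a i s * g (d.C i (u (d.J s x) - d.J s x))) := by
          intro s _
          rw [sub_apply, ContinuousLinearMap.comp_apply, hγapp, hγapp, ← Finset.sum_sub_distrib]
          refine Finset.sum_congr rfl fun i _ => ?_
          rw [map_sub, map_sub]; ring
        rw [Finset.sum_congr rfl h5, Finset.sum_comm]
        refine Finset.sum_congr rfl fun i _ => ?_
        rw [← Finset.mul_sum]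
        congr 1
        have h6 : u (∑ s, d.a i s • d.J s x) - ∑ s, d.a i s • d.J s x =
            ∑ s, d.a i s • (u (d.J s x) - d.J s x) := by
          rw [map_sum, ← Finset.sum_sub_distrib]
          refine Finset.sum_congr rfl fun s _ => ?_
          rw [map_smul, smul_sub]
        rw [h6, map_sum, map_sum]
        refine Finset.sum_congr rfl fun s _ => ?_
        rw [map_smul, map_smul, smul_eq_mul]
      rw [h1, h2, h4, ← Finset.sum_sub_distrib, ← Finset.sum_sub_distrib]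
      refine Finset.sum_congr rfl fun i _ => ?_
      simp only [map_add, map_sub]
      ring
    rw [hsplit]
    have e1 : ‖∑ i, (d.ω i : 𝕜) * g (d.C i (u (d.D i x + ∑ s, d.a i s • d.J s x) -
          (d.D i x + ∑ s, d.a i s • d.J s x)))‖ ≤ κ * (2 * lam + 3) * δ * ‖g‖ * ‖x‖ := by
      refine (norm_sum_le _ _).trans ?_
      have hi : ∀ i ∈ Finset.univ, ‖(d.ω i : 𝕜) * g (d.C i (u (d.D i x +
          ∑ s, d.a i s • d.J s x) - (d.D i x + ∑ s, d.a i s • d.J s x)))‖ ≤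
          d.ω i * (κ * (2 * lam + 3) * δ * ‖g‖ * ‖x‖) := by
        intro i _
        rw [norm_mul, RCLike.norm_ofReal, abs_of_nonneg (d.ω_nonneg i)]
        refine mul_le_mul_of_nonneg_left ?_ (d.ω_nonneg i)
        set z := d.D i x + ∑ s, d.a i s • d.J s x with hz
        have hzn : ‖z‖ ≤ δ * ‖x‖ := d.small i x
        have h1 : ‖u z - z‖ ≤ (2 * lam + 3) * ‖z‖ := by
          have h2 := norm_sub_le (u z) z
          have h3 := (u.le_opNorm z).trans (mul_le_mul_of_nonneg_right hun' (norm_nonneg z))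
          linarith
        calc ‖g (d.C i (u z - z))‖ ≤ ‖g‖ * (‖d.C i‖ * ‖u z - z‖) :=
              (g.le_opNorm _).trans (by gcongr; exact (d.C i).le_opNorm _)
          _ ≤ ‖g‖ * (κ * ((2 * lam + 3) * (δ * ‖x‖))) := by
              gcongr
              · exact d.C_norm i
              · exact h1.trans (by gcongr)
          _ = _ := by ring
      refine (Finset.sum_le_sum hi).trans ?_
      rw [← Finset.sum_mul, d.ω_sum, one_mul]
    have e2 : ‖∑ s, ((γ s).comp u - γ s) (d.J s x)‖ ≤ ε * ‖g‖ * ‖x‖ := by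
      refine (norm_sum_le _ _).trans ?_
      have hi : ∀ s ∈ Finset.univ, ‖((γ s).comp u - γ s) (d.J s x)‖ ≤
          (G s * ‖d.J s‖) * (2 * θ * ‖g‖ * ‖x‖) := by
        intro s _
        refine (ContinuousLinearMap.le_opNorm _ _).trans ?_
        calc ‖(γ s).comp u - γ s‖ * ‖d.J s x‖ ≤ (2 * θ * (G s * ‖g‖)) * (‖d.J s‖ * ‖x‖) := by
              refine mul_le_mul ?_ ((d.J s).le_opNorm x) (norm_nonneg _) ?_
              · refine (huΓ' _ (hγΓ s)).trans ?_
                gcongr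
                exact hγn s
              · have := hG0 s
                positivity
          _ = _ := by ring
      refine (Finset.sum_le_sum hi).trans ?_
      rw [← Finset.sum_mul, ← hM]
      have h1 : M * (2 * θ) ≤ ε := by
        rw [hθ]
        have : M * (2 * (ε / (2 * (M + 1)))) = ε * (M / (M + 1)) := by field_simp
        rw [this]
        have h2 : M / (M + 1) ≤ 1 := by rw [div_le_one (by linarith)]; linarith
        nlinarith
      calc M * (2 * θ * ‖g‖ * ‖x‖) = (M * (2 * θ)) * (‖g‖ * ‖x‖) := by ring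
        _ ≤ ε * (‖g‖ * ‖x‖) := by gcongr
        _ = _ := by ring
    refine (norm_sub_le _ _).trans ?_
    calc _ ≤ κ * (2 * lam + 3) * δ * ‖g‖ * ‖x‖ + ε * ‖g‖ * ‖x‖ := add_le_add e1 e2
      _ = _ := by ring

/-- If amplification data with `κ' > κ` arbitrarily close to `κ` and `δ` arbitrarily small
exist, then the dual has the `κ lam`-approximation property. -/
theorem amplify {lam : ℝ} (hlam : 1 ≤ lam) (h : RenormedAP 𝕜 E lam) {κ : ℝ} (hκ : 1 ≤ κ)
    (hd : ∀ κ' : ℝ, κ < κ' → ∀ δ : ℝ, 0 < δ → ∃ (ι σ : Type) (_ : Fintype ι) (_ : Fintype σ),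
      Nonempty (AmpData 𝕜 E ι σ κ' δ)) :
    HasAP 𝕜 (StrongDual 𝕜 E) (κ * lam) := by
  refine hasAP_of_finite (by positivity) fun Γ hΓ mu' hmu' ε hε => ?_
  have hκ' : κ < mu' / lam := by
    rw [lt_div_iff₀ (by linarith)]; exact hmu'
  have hκ'0 : 0 < mu' / lam := by linarith
  obtain ⟨ι, σ, _, _, ⟨d⟩⟩ := hd (mu' / lam) hκ'
    (ε / (2 * (mu' / lam * (2 * lam + 3)))) (by positivity)
  obtain ⟨v, hv, hvn, hvΓ⟩ := amplify_step hlam h Γ hκ'0.le (by positivity) d (half_pos hε)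
  refine ⟨v, hv, ?_, fun g hg => (hvΓ g hg).trans ?_⟩
  · rw [div_mul_cancel₀ _ (by linarith)] at hvn
    exact hvn
  · gcongr
    have hne : mu' / lam * (2 * lam + 3) ≠ 0 := by positivity
    have : mu' / lam * (2 * lam + 3) * (ε / (2 * (mu' / lam * (2 * lam + 3)))) = ε / 2 := by
      generalize mu' / lam * (2 * lam + 3) = q at hne
      field_simp
    rw [this]; linarith

end Pool.Agent.DualAP
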