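import Pool.Agent.DualAP.Defs

namespace Pool.Agent.DualAP

variable {𝕜 : Type*} [RCLike 𝕜] {E : Type*} [NormedAddCommGroup E] [NormedSpace 𝕜 E]
variable (Γ : Submodule 𝕜 (StrongDual 𝕜 E)) {β : ℝ}

lemma norm_le_dualNorm (hβ : 0 < β) (f : StrongDual 𝕜 E) : ‖f‖ ≤ dualNorm Γ β f := by
  unfold dualNorm
  have : 0 ≤ 4 * β * Metric.infDist f (Γ : Set (StrongDual 𝕜 E)) :=
    mul_nonneg (by linarith) Metric.infDist_nonneg
  linarith

lemma infDist_le_norm (f : StrongDual 𝕜 E) :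
    Metric.infDist f (Γ : Set (StrongDual 𝕜 E)) ≤ ‖f‖ := by
  have := Metric.infDist_le_dist_of_mem (x := f) (Γ.zero_mem)
  simpa using this

lemma dualNorm_le (hβ : 0 < β) (f : StrongDual 𝕜 E) : dualNorm Γ β f ≤ (1 + 4 * β) * ‖f‖ := by
  unfold dualNorm
  have := infDist_le_norm Γ f
  nlinarith

lemma dualNorm_nonneg (hβ : 0 < β) (f : StrongDual 𝕜 E) : 0 ≤ dualNorm Γ β f :=
  (norm_nonneg f).trans (norm_le_dualNorm Γ hβ f)

lemma dualNorm_of_mem {f : StrongDual 𝕜 E} (hf : f ∈ Γ) : dualNorm Γ β f = ‖f‖ := by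
  unfold dualNorm
  rw [Metric.infDist_zero_of_mem (by simpa using hf)]
  simp

lemma infDist_smul_le (c : 𝕜) (f : StrongDual 𝕜 E) :
    Metric.infDist (c • f) (Γ : Set (StrongDual 𝕜 E)) ≤
      ‖c‖ * Metric.infDist f (Γ : Set (StrongDual 𝕜 E)) := by
  by_cases hc : c = 0
  · subst hc
    have h0 : (0 : 𝕜) • f = 0 := by ext x; simp
    rw [h0, norm_zero, zero_mul, Metric.infDist_zero_of_mem (Γ.zero_mem)]
  have hc' : 0 < ‖c‖ := norm_pos_iff.mpr hc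
  rw [← div_le_iff₀' hc']
  refine (Metric.le_infDist ⟨0, Γ.zero_mem⟩).mpr ?_
  intro g hg
  rw [div_le_iff₀' hc']
  have h1 : Metric.infDist (c • f) (Γ : Set (StrongDual 𝕜 E)) ≤ dist (c • f) (c • g) :=
    Metric.infDist_le_dist_of_mem (Γ.smul_mem c hg)
  exact h1.trans (dist_smul₀ c f g).le

lemma dualNorm_smul_le (hβ : 0 < β) (c : 𝕜) (f : StrongDual 𝕜 E) :
    dualNorm Γ β (c • f) ≤ ‖c‖ * dualNorm Γ β f := by
  unfold dualNorm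
  rw [norm_smul]
  have := infDist_smul_le Γ c f
  have h4 : 0 < 4 * β := by linarith
  nlinarith [mul_le_mul_of_nonneg_left this h4.le]

lemma newNorm_bdd (hβ : 0 < β) (x : E) :
    BddAbove {r : ℝ | ∃ f : StrongDual 𝕜 E, dualNorm Γ β f ≤ 1 ∧ r = ‖f x‖} := by
  refine ⟨‖x‖, ?_⟩
  rintro r ⟨f, hf, rfl⟩
  have h1 : ‖f‖ ≤ 1 := (norm_le_dualNorm Γ hβ f).trans hf
  calc ‖f x‖ ≤ ‖f‖ * ‖x‖ := f.le_opNorm x
    _ ≤ 1 * ‖x‖ := by gcongr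
    _ = ‖x‖ := one_mul _

lemma newNorm_nonempty (x : E) :
    {r : ℝ | ∃ f : StrongDual 𝕜 E, dualNorm Γ β f ≤ 1 ∧ r = ‖f x‖}.Nonempty := by
  refine ⟨0, 0, ?_, by simp⟩
  rw [dualNorm_of_mem Γ Γ.zero_mem]
  simp

lemma apply_le_newNorm_of_le_one (hβ : 0 < β) {f : StrongDual 𝕜 E} (hf : dualNorm Γ β f ≤ 1)
    (x : E) : ‖f x‖ ≤ newNorm Γ β x :=
  le_csSup (newNorm_bdd Γ hβ x) ⟨f, hf, rfl⟩

lemma newNorm_nonneg (hβ : 0 < β) (x : E) : 0 ≤ newNorm Γ β x := by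
  have := apply_le_newNorm_of_le_one Γ hβ (f := 0) (by
    rw [dualNorm_of_mem Γ Γ.zero_mem]; simp) x
  simpa using this

/-- `|f x| ≤ |f| |x|`. -/
lemma apply_le (hβ : 0 < β) (f : StrongDual 𝕜 E) (x : E) :
    ‖f x‖ ≤ dualNorm Γ β f * newNorm Γ β x := by
  have h0 := dualNorm_nonneg Γ hβ f
  rcases h0.eq_or_lt with h | h
  · have hf : ‖f‖ ≤ 0 := by
      have := norm_le_dualNorm Γ hβ f
      linarith
    have hf' : f = 0 := by simpa using hf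
    subst hf'
    rw [← h]; simp
  · set s := dualNorm Γ β f with hs
    have h1 : dualNorm Γ β (((s⁻¹ : ℝ) : 𝕜) • f) ≤ 1 := by
      refine (dualNorm_smul_le Γ hβ _ f).trans ?_
      rw [RCLike.norm_ofReal, abs_of_pos (inv_pos.mpr h), ← hs, inv_mul_cancel₀ h.ne']
    have h2 := apply_le_newNorm_of_le_one Γ hβ h1 x
    simp only [smul_apply, smul_eq_mul, norm_mul, RCLike.norm_ofReal,
      abs_of_pos (inv_pos.mpr h)] at h2
    rw [inv_mul_le_iff₀ h] at h2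
    exact h2

lemma newNorm_le (x : E) {c : ℝ}
    (h : ∀ f : StrongDual 𝕜 E, dualNorm Γ β f ≤ 1 → ‖f x‖ ≤ c) : newNorm Γ β x ≤ c := by
  refine csSup_le (newNorm_nonempty Γ x) ?_
  rintro r ⟨f, hf, rfl⟩
  exact h f hf

lemma newNorm_le_norm (hβ : 0 < β) (x : E) : newNorm Γ β x ≤ ‖x‖ := by
  refine newNorm_le Γ x fun f hf => ?_
  have h1 : ‖f‖ ≤ 1 := (norm_le_dualNorm Γ hβ f).trans hf
  calc ‖f x‖ ≤ ‖f‖ * ‖x‖ := f.le_opNorm x
    _ ≤ 1 * ‖x‖ := by gcongr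
    _ = ‖x‖ := one_mul _

/-- `‖x‖ ≤ (1 + 4 β) |x|`. -/
lemma norm_le_newNorm (hβ : 0 < β) (x : E) : ‖x‖ ≤ (1 + 4 * β) * newNorm Γ β x := by
  obtain ⟨f, hf, hfx⟩ := exists_dual_vector'' 𝕜 x
  have h1 := apply_le Γ hβ f x
  rw [hfx, RCLike.norm_ofReal, abs_of_nonneg (norm_nonneg x)] at h1
  have h2 := dualNorm_le Γ hβ f
  have h3 := newNorm_nonneg Γ hβ x
  calc ‖x‖ ≤ dualNorm Γ β f * newNorm Γ β x := h1
    _ ≤ ((1 + 4 * β) * ‖f‖) * newNorm Γ β x := by gcongr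
    _ ≤ ((1 + 4 * β) * 1) * newNorm Γ β x := by gcongr
    _ = _ := by ring

/-- the annihilator in `E` of `Γ` -/
def Ann (r : E) : Prop := ∀ f ∈ Γ, f r = 0

lemma apply_ann_le {r : E} (hr : Ann Γ r) (f : StrongDual 𝕜 E) :
    ‖f r‖ ≤ Metric.infDist f (Γ : Set (StrongDual 𝕜 E)) * ‖r‖ := by
  rcases (norm_nonneg r).eq_or_lt with h | h
  · have : r = 0 := by
      rw [← norm_eq_zero]; exact h.symm
    subst this; simp
  rw [← div_le_iff₀ h]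
  refine (Metric.le_infDist ⟨0, Γ.zero_mem⟩).mpr ?_
  intro g hg
  rw [div_le_iff₀ h, dist_eq_norm]
  have : f r = (f - g) r := by simp [hr g hg]
  rw [this]
  exact (f - g).le_opNorm r

/-- `|x + 4 β r| ≤ c` whenever `‖x‖, ‖r‖ ≤ c` and `r` is annihilated by `Γ`. -/
lemma newNorm_add_le (hβ : 0 < β) {x r : E} (hr : Ann Γ r) {c : ℝ} (hx : ‖x‖ ≤ c)
    (hrc : ‖r‖ ≤ c) : newNorm Γ β (x + ((4 * β : ℝ) : 𝕜) • r) ≤ c := by
  have hc : 0 ≤ c := (norm_nonneg x).trans hx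
  refine newNorm_le Γ _ fun f hf => ?_
  have h1 := apply_ann_le Γ hr f
  have h0 : 0 ≤ Metric.infDist f (Γ : Set (StrongDual 𝕜 E)) := Metric.infDist_nonneg
  rw [map_add, map_smul]
  calc ‖f x + ((4 * β : ℝ) : 𝕜) • f r‖ ≤ ‖f x‖ + ‖((4 * β : ℝ) : 𝕜) • f r‖ := norm_add_le _ _
    _ = ‖f x‖ + (4 * β) * ‖f r‖ := by
        rw [norm_smul, RCLike.norm_ofReal, abs_of_pos (by linarith)]
    _ ≤ ‖f‖ * c + (4 * β) * (Metric.infDist f (Γ : Set (StrongDual 𝕜 E)) * c) := by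
        have h2 : ‖f x‖ ≤ ‖f‖ * c := (f.le_opNorm x).trans (by gcongr)
        have h3 : ‖f r‖ ≤ Metric.infDist f (Γ : Set (StrongDual 𝕜 E)) * c :=
          h1.trans (by gcongr)
        have h4 : 0 ≤ 4 * β := by linarith
        nlinarith [mul_le_mul_of_nonneg_left h3 h4]
    _ = dualNorm Γ β f * c := by unfold dualNorm; ring
    _ ≤ 1 * c := by gcongr
    _ = c := one_mul c

/-- Phase alignment. -/
lemma exists_phase (z : 𝕜) : ∃ θ : 𝕜, ‖θ‖ = 1 ∧ θ * z = (‖z‖ : 𝕜) := by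
  by_cases hz : z = 0
  · exact ⟨1, by simp, by simp [hz]⟩
  · have hz' : (‖z‖ : 𝕜) ≠ 0 := by
      simpa using hz
    refine ⟨(‖z‖ : 𝕜) / z, ?_, ?_⟩
    · rw [norm_div, RCLike.norm_ofReal, abs_of_nonneg (norm_nonneg z), div_self]
      simpa using hz
    · field_simp

section operator

variable {lam : ℝ} {u : E →L[𝕜] E}

/-- `|f (u x)| + 4 β |f (u r)| ≤ lam |f| c`. -/
lemma key_ineq (hβ : 0 < β) (hlam : 0 ≤ lam)
    (hu : ∀ x, newNorm Γ β (u x) ≤ lam * newNorm Γ β x) (f : StrongDual 𝕜 E)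
    {x r : E} (hr : Ann Γ r) {c : ℝ} (hx : ‖x‖ ≤ c) (hrc : ‖r‖ ≤ c) :
    ‖f (u x)‖ + 4 * β * ‖f (u r)‖ ≤ lam * dualNorm Γ β f * c := by
  obtain ⟨θ₁, h1, h1'⟩ := exists_phase (f (u x))
  obtain ⟨θ₂, h2, h2'⟩ := exists_phase (f (u r))
  have hr2 : Ann Γ (θ₂ • r) := by
    intro g hg
    rw [map_smul, hr g hg, smul_zero]
  have h3 : newNorm Γ β (θ₁ • x + ((4 * β : ℝ) : 𝕜) • (θ₂ • r)) ≤ c :=
    newNorm_add_le Γ hβ hr2 (by rw [norm_smul, h1, one_mul]; exact hx)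
      (by rw [norm_smul, h2, one_mul]; exact hrc)
  have h4 : f (u (θ₁ • x + ((4 * β : ℝ) : 𝕜) • (θ₂ • r))) =
      ((‖f (u x)‖ + 4 * β * ‖f (u r)‖ : ℝ) : 𝕜) := by
    simp only [map_add, map_smul, smul_eq_mul]
    rw [h1', h2']
    push_cast
    ring
  have h5 := apply_le Γ hβ f (u (θ₁ • x + ((4 * β : ℝ) : 𝕜) • (θ₂ • r)))
  rw [h4, RCLike.norm_ofReal] at h5
  have h6 := hu (θ₁ • x + ((4 * β : ℝ) : 𝕜) • (θ₂ • r))
  have h7 := dualNorm_nonneg Γ hβ f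
  calc ‖f (u x)‖ + 4 * β * ‖f (u r)‖ ≤ |‖f (u x)‖ + 4 * β * ‖f (u r)‖| := le_abs_self _
    _ ≤ _ := h5
    _ ≤ dualNorm Γ β f * (lam * c) := by
        refine mul_le_mul_of_nonneg_left (h6.trans ?_) h7
        exact mul_le_mul_of_nonneg_left h3 hlam
    _ = _ := by ring

/-- On the annihilator of `Γ` the operator has norm at most `lam`. -/
lemma ann_bound (hβ : 0 < β) (hlam : 0 ≤ lam)
    (hu : ∀ x, newNorm Γ β (u x) ≤ lam * newNorm Γ β x) {r : E} (hr : Ann Γ r) :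
    ‖u r‖ ≤ lam * ‖r‖ := by
  obtain ⟨f, hf, hfx⟩ := exists_dual_vector'' 𝕜 (u r)
  have h1 := key_ineq Γ hβ hlam hu f hr (le_refl ‖r‖) (le_refl ‖r‖)
  rw [hfx, RCLike.norm_ofReal, abs_of_nonneg (norm_nonneg _)] at h1
  have h2 : dualNorm Γ β f ≤ 1 + 4 * β := by
    have := dualNorm_le Γ hβ f
    nlinarith
  have h3 : lam * dualNorm Γ β f * ‖r‖ ≤ lam * (1 + 4 * β) * ‖r‖ := by gcongr
  have h4 : (1 + 4 * β) * ‖u r‖ ≤ (1 + 4 * β) * (lam * ‖r‖) := by nlinarith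
  exact le_of_mul_le_mul_left h4 (by linarith)

end operator

end Pool.Agent.DualAP
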