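import Pool.Agent.DualAP.Model

open scoped ENNReal

namespace Pool.Agent.DualAP

variable {𝕜 : Type*} [RCLike 𝕜] {E : Type*} [NormedAddCommGroup E] [NormedSpace 𝕜 E]
variable (p : ℝ≥0∞) [Fact (1 ≤ p)]

/-- The base vectors: `α` in one place and `-α/2` in the two others, shifted by `b`. -/
noncomputable def nu (α b : ℝ) (i s : Fin 3) : ℝ := (if s = i then α else - (α / 2)) + b

/-- The base functionals. -/
noncomputable def wf (A B : ℝ) (i s : Fin 3) : ℝ := if s = i then A else B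

/-- Parameters for which the amplification works in `ℓ_p`. -/
structure Params (p : ℝ≥0∞) [Fact (1 ≤ p)] (𝕜 E : Type*) [RCLike 𝕜] [NormedAddCommGroup E]
    [NormedSpace 𝕜 E] (α A B b ρ : ℝ) : Prop where
  pairing : α * (A - B) = 1
  norm_one : ∀ i, lpn p (nu α 0 i) ≤ 1
  norm_small : ∀ i, lpn p (nu α b i) ≤ ρ
  dual : ∀ (m : ℕ) (π : Fin m → Fin 3) (y : PiLp p (fun _ : (Fin m → Fin 3) => E)),
    ‖∑ s, ((∏ k, wf A B (π k) (s k) : ℝ) : 𝕜) • y s‖ ≤ ‖y‖

lemma sum_pair_self (α A B : ℝ) (h : α * (A - B) = 1) (i : Fin 3) :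
    ∑ s, wf A B i s * nu α 0 i s = 1 := by
  fin_cases i <;> simp [Fin.sum_univ_three, wf, nu] <;> linarith

lemma sum_pair_zero (α A B : ℝ) (l : Fin 3) :
    ∑ i, ∑ s, wf A B i s * nu α 0 l s = 0 := by
  fin_cases l <;> simp [Fin.sum_univ_three, wf, nu] <;> ring

/-- coordinates of the embedding -/
noncomputable def Jc {σ : Type} [Fintype σ] [DecidableEq σ]
    (j : PiLp p (fun _ : σ => E) →L[𝕜] E) (s : σ) : E →L[𝕜] E :=
  j.comp (((PiLp.continuousLinearEquiv p 𝕜 (fun _ : σ => E)).symm :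
    (σ → E) →L[𝕜] PiLp p (fun _ : σ => E)).comp (ContinuousLinearMap.single 𝕜 (fun _ : σ => E) s))

omit [Fact (1 ≤ p)] in
lemma sum_Jc {σ : Type} [Fintype σ] [DecidableEq σ]
    (j : PiLp p (fun _ : σ => E) →L[𝕜] E) (z : σ → ℝ) (x : E) :
    ∑ s, (z s : 𝕜) • Jc p j s x = j (vec p 𝕜 z x) := by
  have h1 : vec p 𝕜 z x = ∑ s, (z s : 𝕜) • ((PiLp.continuousLinearEquiv p 𝕜
      (fun _ : σ => E)).symm (Pi.single s x)) := by
    unfold vec
    have h2 : (fun s => (z s : 𝕜) • x) = ∑ s, (z s : 𝕜) • (Pi.single s x : σ → E) := by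
      funext t
      rw [Finset.sum_apply, Finset.sum_eq_single t]
      · simp
      · intro s _ hst
        simp [hst.symm]
      · intro h; exact absurd (Finset.mem_univ t) h
    rw [h2]
    have h3 : (WithLp.toLp p (∑ s, (z s : 𝕜) • (Pi.single s x : σ → E)) :
        PiLp p (fun _ : σ => E)) = (PiLp.continuousLinearEquiv p 𝕜 (fun _ : σ => E)).symm
          (∑ s, (z s : 𝕜) • (Pi.single s x : σ → E)) := rfl
    rw [h3, map_sum]
    refine Finset.sum_congr rfl fun s _ => ?_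
    rw [map_smul]
  rw [h1, map_sum]
  refine Finset.sum_congr rfl fun s _ => ?_
  rw [map_smul]
  rfl

/-- The amplification data obtained from a complemented copy of `ℓ_p^{3^m}(E)` in `E`. -/
lemma exists_ampData {α A B b ρ : ℝ} (hP : Params p 𝕜 E α A B b ρ) (m : ℕ)
    {κ : ℝ} (hκ : 0 ≤ κ) (j : PiLp p (fun _ : (Fin m → Fin 3) => E) →L[𝕜] E)
    (P : E →L[𝕜] PiLp p (fun _ : (Fin m → Fin 3) => E)) (hj : ‖j‖ ≤ 1) (hPn : ‖P‖ ≤ κ)
    (hPj : ∀ y, P (j y) = y) :
    Nonempty (AmpData 𝕜 E (Fin m → Fin 3) (Fin m → Fin 3) κ (ρ ^ m)) := by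
  set ν : (Fin m → Fin 3) → (Fin m → Fin 3) → ℝ := fun π s => ∏ k, nu α 0 (π k) (s k) with hν
  set νb : (Fin m → Fin 3) → (Fin m → Fin 3) → ℝ := fun π s => ∏ k, nu α b (π k) (s k) with hνb
  set W : (Fin m → Fin 3) → (Fin m → Fin 3) → ℝ := fun π s => ∏ k, wf A B (π k) (s k) with hW
  have hjle : ∀ y, ‖j y‖ ≤ ‖y‖ := fun y => by
    refine (j.le_opNorm y).trans ?_
    calc ‖j‖ * ‖y‖ ≤ 1 * ‖y‖ := by gcongr
      _ = ‖y‖ := one_mul _
  set c : (Fin m → Fin 3) → (Fin m → Fin 3) → ℝ := fun π τ => ∑ s, W π s * ν τ s with hc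
  have hcprod : ∀ π τ, c π τ = ∏ k, ∑ i, wf A B (π k) i * nu α 0 (τ k) i := by
    intro π τ
    rw [Finset.prod_univ_sum, Fintype.piFinset_univ]
    refine Finset.sum_congr rfl fun s _ => ?_
    rw [hW, hν]
    simp only
    rw [Finset.prod_mul_distrib]
  have hcard : (0 : ℝ) < Fintype.card (Fin m → Fin 3) := by
    have : 0 < Fintype.card (Fin m → Fin 3) := Fintype.card_pos
    exact_mod_cast this
  refine ⟨{
    C := fun π => ∑ s, (W π s : 𝕜) • (PiLp.proj p (fun _ : (Fin m → Fin 3) => E) s).comp P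
    D := fun π => ∑ s, (ν π s : 𝕜) • Jc p j s
    J := fun s => Jc p j s
    a := fun π s => ((νb π s - ν π s : ℝ) : 𝕜)
    c := fun π τ => (c π τ : 𝕜)
    ω := fun _ => (Fintype.card (Fin m → Fin 3) : ℝ)⁻¹
    comp_eq := ?_
    trace_eq := ?_
    annih := ?_
    ω_nonneg := fun _ => by positivity
    ω_sum := ?_
    C_norm := ?_
    D_norm := ?_
    small := ?_ }⟩
  · intro π τ x
    have h1 : (∑ s, (ν τ s : 𝕜) • Jc p j s : E →L[𝕜] E) x = j (vec p 𝕜 (ν τ) x) := by
      rw [← sum_Jc, sum_apply]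
      rfl
    rw [h1, sum_apply]
    have h2 : ∀ s ∈ Finset.univ, ((W π s : 𝕜) • (PiLp.proj p
        (fun _ : (Fin m → Fin 3) => E) s).comp P : E →L[𝕜] E) (j (vec p 𝕜 (ν τ) x)) =
        ((W π s * ν τ s : ℝ) : 𝕜) • x := by
      intro s _
      rw [smul_apply, ContinuousLinearMap.comp_apply, hPj]
      simp only [PiLp.proj_apply, vec]
      rw [smul_smul]
      push_cast
      rfl
    rw [Finset.sum_congr rfl h2, ← Finset.sum_smul, hc]
    push_cast
    rfl
  · have h1 : ∀ π, c π π = 1 := by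
      intro π
      rw [hcprod]
      exact Finset.prod_eq_one fun k _ => sum_pair_self α A B hP.pairing (π k)
    simp only [h1]
    rw [Finset.sum_const, Finset.card_univ]
    simp only [nsmul_eq_mul]
    push_cast
    rw [mul_one, mul_inv_cancel₀]
    exact_mod_cast hcard.ne'
  · intro s τ
    have hreal : ∑ π, (Fintype.card (Fin m → Fin 3) : ℝ)⁻¹ * ((νb π s - ν π s) * c π τ) = 0 := by
      rw [← Finset.mul_sum]
      refine mul_eq_zero_of_right _ ?_
      have h1 : ∀ b' : ℝ, ∑ π : Fin m → Fin 3, (∏ k, nu α b' (π k) (s k)) * c π τ =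
          ∏ k, ∑ i, nu α b' i (s k) * (∑ t, wf A B i t * nu α 0 (τ k) t) := by
        intro b'
        rw [Finset.prod_univ_sum, Fintype.piFinset_univ]
        refine Finset.sum_congr rfl fun π _ => ?_
        rw [hcprod, ← Finset.prod_mul_distrib]
      have h2 : ∀ k, ∑ i, nu α b i (s k) * (∑ t, wf A B i t * nu α 0 (τ k) t) =
          ∑ i, nu α 0 i (s k) * (∑ t, wf A B i t * nu α 0 (τ k) t) := by
        intro k
        have h3 : ∀ i, nu α b i (s k) = nu α 0 i (s k) + b := by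
          intro i; unfold nu; ring
        simp only [h3, add_mul, Finset.sum_add_distrib]
        rw [← Finset.mul_sum, sum_pair_zero, mul_zero, add_zero]
      simp only [sub_mul, Finset.sum_sub_distrib]
      rw [hνb, hν]
      simp only
      rw [h1, h1]
      simp only [h2, sub_self]
    have := congrArg (fun r : ℝ => (r : 𝕜)) hreal
    push_cast at this
    push_cast
    exact this
  · rw [Finset.sum_const, Finset.card_univ, nsmul_eq_mul, mul_inv_cancel₀ hcard.ne']
  · intro π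
    refine ContinuousLinearMap.opNorm_le_bound _ hκ fun x => ?_
    rw [sum_apply]
    have h1 : ∀ s ∈ Finset.univ, ((W π s : 𝕜) • (PiLp.proj p
        (fun _ : (Fin m → Fin 3) => E) s).comp P : E →L[𝕜] E) x = (W π s : 𝕜) • (P x) s := by
      intro s _
      rfl
    rw [Finset.sum_congr rfl h1]
    refine (hP.dual m π (P x)).trans ((P.le_opNorm x).trans ?_)
    gcongr
  · intro π
    refine ContinuousLinearMap.opNorm_le_bound _ zero_le_one fun x => ?_
    have h1 : (∑ s, (ν π s : 𝕜) • Jc p j s : E →L[𝕜] E) x = j (vec p 𝕜 (ν π) x) := by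
      rw [← sum_Jc, sum_apply]
      rfl
    rw [h1]
    refine (hjle _).trans ?_
    rw [norm_vec]
    gcongr
    refine (lpn_prod p (fun k => nu α 0 (π k))).trans ?_
    exact Finset.prod_le_one (fun k _ => norm_nonneg _) fun k _ => hP.norm_one (π k)
  · intro π x
    have h1 : (∑ s, (ν π s : 𝕜) • Jc p j s : E →L[𝕜] E) x +
        ∑ s, ((νb π s - ν π s : ℝ) : 𝕜) • Jc p j s x = j (vec p 𝕜 (νb π) x) := by
      rw [← sum_Jc, sum_apply, ← Finset.sum_add_distrib]
      refine Finset.sum_congr rfl fun s _ => ?_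
      rw [smul_apply, ← add_smul]
      congr 1
      push_cast
      ring
    rw [h1]
    refine (hjle _).trans ?_
    rw [norm_vec]
    gcongr
    refine (lpn_prod p (fun k => nu α b (π k))).trans ?_
    calc ∏ k, lpn p (nu α b (π k)) ≤ ∏ _k : Fin m, ρ :=
          Finset.prod_le_prod (fun k _ => norm_nonneg _) fun k _ => hP.norm_small (π k)
      _ = ρ ^ m := by simp

end Pool.Agent.DualAP
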