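import Mathlib

/-!
# Approximation property of a space and of its renormings

`HasAP 𝕜 X lam` is the `lam`-approximation property of the Banach space `X`.
For a finite-dimensional subspace `Γ` of the dual of `E` and `β > 0`,
`dualNorm Γ β` is the norm `|f| = ‖f‖ + 4 β dist (f, Γ)` on the dual of `E`, and
`newNorm Γ β` is the norm `|x| = sup {|f x| : |f| ≤ 1}` on `E` (whose dual norm it is).
`RenormedAP 𝕜 E lam` says that `E` with each of these norms has the
`lam`-approximation property.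
-/

namespace Pool.Agent.DualAP

/-- The `lam`-approximation property: for every compact set `K` and `ε > 0` there is a
finite-rank operator of norm at most `lam` moving every point of `K` by less than `ε`. -/
def HasAP (𝕜 : Type*) [RCLike 𝕜] (X : Type*) [NormedAddCommGroup X] [NormedSpace 𝕜 X]
    (lam : ℝ) : Prop :=
  ∀ K : Set X, IsCompact K → ∀ ε : ℝ, 0 < ε →
    ∃ u : X →L[𝕜] X, FiniteDimensional 𝕜 (LinearMap.range (u : X →ₗ[𝕜] X)) ∧
      ‖u‖ ≤ lam ∧ ∀ x ∈ K, ‖u x - x‖ < ε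

variable {𝕜 : Type*} [RCLike 𝕜] {E : Type*} [NormedAddCommGroup E] [NormedSpace 𝕜 E]

/-- The norm `|f| = ‖f‖ + 4 β dist (f, Γ)` on the dual of `E`. -/
noncomputable def dualNorm (Γ : Submodule 𝕜 (StrongDual 𝕜 E)) (β : ℝ)
    (f : StrongDual 𝕜 E) : ℝ :=
  ‖f‖ + 4 * β * Metric.infDist f (Γ : Set (StrongDual 𝕜 E))

/-- The norm `|x| = sup {|f x| : |f| ≤ 1}` on `E`. -/
noncomputable def newNorm (Γ : Submodule 𝕜 (StrongDual 𝕜 E)) (β : ℝ) (x : E) : ℝ :=
  sSup {r : ℝ | ∃ f : StrongDual 𝕜 E, dualNorm Γ β f ≤ 1 ∧ r = ‖f x‖}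

/-- Every renorming `(E, |·|)` has the `lam`-approximation property. The norms `|·|` are
equivalent to the original one, so they have the same compact sets and bounded operators. -/
def RenormedAP (𝕜 : Type*) [RCLike 𝕜] (E : Type*) [NormedAddCommGroup E] [NormedSpace 𝕜 E]
    (lam : ℝ) : Prop :=
  ∀ Γ : Submodule 𝕜 (StrongDual 𝕜 E), FiniteDimensional 𝕜 Γ → ∀ β : ℝ, 0 < β →
    ∀ K : Set E, IsCompact K → ∀ ε : ℝ, 0 < ε →
      ∃ u : E →L[𝕜] E, FiniteDimensional 𝕜 (LinearMap.range (u : E →ₗ[𝕜] E)) ∧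
        (∀ x, newNorm Γ β (u x) ≤ lam * newNorm Γ β x) ∧
        ∀ x ∈ K, newNorm Γ β (u x - x) < ε

end Pool.Agent.DualAP
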