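import Pool.Agent.DualAP.Pass
import Pool.Agent.DualAP.Oper

namespace Pool.Agent.DualAP

variable {𝕜 : Type*} [RCLike 𝕜] {E : Type*} [NormedAddCommGroup E] [NormedSpace 𝕜 E]

lemma finite_combine (u v : E →L[𝕜] E)
    (hu : FiniteDimensional 𝕜 (LinearMap.range (u : E →ₗ[𝕜] E)))
    (hv : FiniteDimensional 𝕜 (LinearMap.range (v : E →ₗ[𝕜] E))) :
    FiniteDimensional 𝕜 (LinearMap.range ((u + (v - v.comp u) : E →L[𝕜] E) : E →ₗ[𝕜] E)) := by
  have hle : LinearMap.range ((u + (v - v.comp u) : E →L[𝕜] E) : E →ₗ[𝕜] E) ≤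
      LinearMap.range (u : E →ₗ[𝕜] E) ⊔ LinearMap.range (v : E →ₗ[𝕜] E) := by
    rintro _ ⟨x, rfl⟩
    refine Submodule.add_mem_sup ⟨x, rfl⟩ ?_
    refine ⟨x - u x, ?_⟩
    simp
  exact Submodule.finiteDimensional_of_le hle

/-- If the adjoint of `v` is the identity on `Γ₀` then some correction of `v` by an operator
from the renormings is again the identity on `Γ₀`, with controlled norm. -/
lemma improve {lam : ℝ} (hlam : 1 ≤ lam) (h : RenormedAP 𝕜 E lam)
    (Γ₀ : Submodule 𝕜 (StrongDual 𝕜 E)) {t : ℝ} (ht : 0 < t) {ε : ℝ} (hε : 0 < ε)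
    (v : E →L[𝕜] E) (hv : FiniteDimensional 𝕜 (LinearMap.range (v : E →ₗ[𝕜] E)))
    (hvΓ : ∀ g ∈ Γ₀, g.comp v = g) :
    ∃ w : E →L[𝕜] E, FiniteDimensional 𝕜 (LinearMap.range (w : E →ₗ[𝕜] E)) ∧
      (∀ g ∈ Γ₀, g.comp w = g) ∧
      ‖w‖ ≤ (lam + t * (1 + 2 * lam)) / (1 + t) + ε + ((lam - 1) / t + ε) * ‖v‖ := by
  have hadj := adj_finite v hv
  obtain ⟨u, hufin, -, hun, huΓ⟩ := exists_operator hlam h
    (LinearMap.range (adj v : StrongDual 𝕜 E →ₗ[𝕜] StrongDual 𝕜 E)) (β := t / 2)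
    (by linarith) hε
  have h2 : 2 * (t / 2) = t := by ring
  rw [h2] at hun huΓ
  have hη : 0 ≤ (lam - 1) / t + ε := by
    have : 0 ≤ (lam - 1) / t := div_nonneg (by linarith) ht.le
    linarith
  refine ⟨u + (v - v.comp u), finite_combine u v hufin hv, ?_, ?_⟩
  · intro g hg
    ext x
    have h1 : ∀ y, g (v y) = g y := fun y => by
      have := congrArg (fun φ : StrongDual 𝕜 E => φ y) (hvΓ g hg)
      simpa using this
    simp [h1]
  · refine (norm_add_le _ _).trans (add_le_add hun ?_)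
    refine ContinuousLinearMap.opNorm_le_bound _ (by positivity) fun x => ?_
    obtain ⟨f, hf, hfx⟩ := exists_dual_vector'' 𝕜 ((v - v.comp u) x)
    have h3 : ‖(v - v.comp u) x‖ = ‖((f.comp v).comp u - f.comp v) x‖ := by
      have : ((f.comp v).comp u - f.comp v) x = - f ((v - v.comp u) x) := by
        simp
      rw [this, norm_neg, hfx, RCLike.norm_ofReal, abs_of_nonneg (norm_nonneg _)]
    rw [h3]
    have h4 := huΓ (f.comp v) ⟨f, rfl⟩
    have h5 : ‖f.comp v‖ ≤ ‖v‖ := by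
      refine (f.opNorm_comp_le v).trans ?_
      calc ‖f‖ * ‖v‖ ≤ 1 * ‖v‖ := by gcongr
        _ = ‖v‖ := one_mul _
    refine (ContinuousLinearMap.le_opNorm _ x).trans ?_
    gcongr
    exact h4.trans (by gcongr)

lemma exists_exact {lam : ℝ} (hlam : 1 ≤ lam) (h : RenormedAP 𝕜 E lam)
    (Γ₀ : Submodule 𝕜 (StrongDual 𝕜 E)) [FiniteDimensional 𝕜 Γ₀] {t : ℝ} (ht : 0 < t)
    (htl : lam - 1 < t) {mu : ℝ}
    (hmu : t * (lam + t * (1 + 2 * lam)) < mu * ((1 + t) * (t - (lam - 1)))) :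
    ∃ w : E →L[𝕜] E, FiniteDimensional 𝕜 (LinearMap.range (w : E →ₗ[𝕜] E)) ∧
      (∀ g ∈ Γ₀, g.comp w = g) ∧ ‖w‖ ≤ mu := by
  set S : Set ℝ := {r | ∃ w : E →L[𝕜] E,
    FiniteDimensional 𝕜 (LinearMap.range (w : E →ₗ[𝕜] E)) ∧
      (∀ g ∈ Γ₀, g.comp w = g) ∧ r = ‖w‖} with hS
  have hne : S.Nonempty := by
    obtain ⟨w, h1, h2⟩ := exists_interp Γ₀
    exact ⟨‖w‖, w, h1, h2, rfl⟩
  have hbd : BddBelow S := ⟨0, by rintro r ⟨w, -, -, rfl⟩; exact norm_nonneg _⟩
  set M := sInf S with hM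
  have hM0 : 0 ≤ M := le_csInf hne (by rintro r ⟨w, -, -, rfl⟩; exact norm_nonneg _)
  set B := (lam + t * (1 + 2 * lam)) / (1 + t) with hB
  set η := (lam - 1) / t with hη
  have hη0 : 0 ≤ η := div_nonneg (by linarith) ht.le
  have hη1 : η < 1 := by rw [hη, div_lt_one ht]; exact htl
  have hstep : ∀ ε : ℝ, 0 < ε → M ≤ B + ε + (η + ε) * (M + ε) := by
    intro ε hε
    obtain ⟨r, ⟨v, hv, hvΓ, rfl⟩, hr⟩ := exists_lt_of_csInf_lt hne (show M < M + ε by linarith)
    obtain ⟨w, hw, hwΓ, hwn⟩ := improve hlam h Γ₀ ht hε v hv hvΓ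
    have h1 : M ≤ ‖w‖ := csInf_le hbd ⟨w, hw, hwΓ, rfl⟩
    have h2 : (η + ε) * ‖v‖ ≤ (η + ε) * (M + ε) := by gcongr
    linarith
  have hfin : M * (1 - η) ≤ B := by
    by_contra hcon
    push Not at hcon
    set d := M * (1 - η) - B with hd
    have hd0 : 0 < d := by rw [hd]; linarith
    have hM3 : 0 < 3 + M := by linarith
    have he := hstep (min 1 (d / (2 * (3 + M)))) (lt_min one_pos (by positivity))
    set e := min 1 (d / (2 * (3 + M))) with hedef
    have he0 : 0 < e := lt_min one_pos (by positivity)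
    have he1 : e ≤ 1 := min_le_left _ _
    have he2 : e * (3 + M) ≤ d / 2 := by
      have : e ≤ d / (2 * (3 + M)) := min_le_right _ _
      rw [le_div_iff₀ (by positivity)] at this
      linarith
    have he3 : d ≤ e * (1 + M + η + e) := by
      rw [hd]; linarith
    have he4 : e * (1 + M + η + e) ≤ e * (3 + M) :=
      mul_le_mul_of_nonneg_left (by linarith) he0.le
    linarith
  have hlt : M < mu := by
    have h1 : B * (1 + t) = lam + t * (1 + 2 * lam) := by
      rw [hB]; field_simp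
    have h2 : t * (1 - η) = t - (lam - 1) := by
      rw [hη]; field_simp
    have h3 : B * ((1 + t) * t) < mu * (1 - η) * ((1 + t) * t) := by
      calc B * ((1 + t) * t) = t * (B * (1 + t)) := by ring
        _ = t * (lam + t * (1 + 2 * lam)) := by rw [h1]
        _ < mu * ((1 + t) * (t - (lam - 1))) := hmu
        _ = mu * (1 - η) * ((1 + t) * t) := by rw [← h2]; ring
    have h4 : B < mu * (1 - η) := lt_of_mul_lt_mul_right h3 (by positivity)
    have h5 : M * (1 - η) < mu * (1 - η) := lt_of_le_of_lt hfin h4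
    exact lt_of_mul_lt_mul_right h5 (by linarith)
  obtain ⟨r, ⟨w, hw, hwΓ, rfl⟩, hr⟩ := exists_lt_of_csInf_lt hne hlt
  exact ⟨w, hw, hwΓ, hr.le⟩

theorem linear_bound {lam : ℝ} (hlam : 1 ≤ lam) (h : RenormedAP 𝕜 E lam) (mu : ℝ)
    (hmu : 2 * lam + 1 ≤ mu ∨ ∀ mu' : ℝ, mu < mu' → ∃ t : ℝ, 0 < t ∧ lam - 1 < t ∧
      t * (lam + t * (1 + 2 * lam)) ≤ mu' * ((1 + t) * (t - (lam - 1)))) :
    HasAP 𝕜 (StrongDual 𝕜 E) mu := by
  have hmu0 : 0 < mu := by
    rcases hmu with h1 | hall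
    · linarith
    · have h1 : (1 : ℝ) ≤ mu := by
        refine le_of_forall_gt_imp_ge_of_dense fun mu' hmu' => ?_
        obtain ⟨t, ht, htl, h1⟩ := hall mu' hmu'
        have h3 : 0 < (1 + t) * (t - (lam - 1)) := mul_pos (by linarith) (by linarith)
        have h4 : 1 * ((1 + t) * (t - (lam - 1))) ≤ mu' * ((1 + t) * (t - (lam - 1))) := by
          refine le_trans ?_ h1
          nlinarith [mul_nonneg ht.le (by linarith : (0:ℝ) ≤ lam - 1), mul_pos ht ht]
        exact le_of_mul_le_mul_right h4 h3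
      linarith
  refine hasAP_of_finite hmu0 fun Γ hΓ mu' hmu' ε hε => ?_
  obtain ⟨t, ht, htl, h1⟩ : ∃ t : ℝ, 0 < t ∧ lam - 1 < t ∧
      t * (lam + t * (1 + 2 * lam)) < mu' * ((1 + t) * (t - (lam - 1))) := by
    rcases hmu with h1 | hall
    · have hd : 0 < mu' - (1 + 2 * lam) := by linarith
      have hmu'0 : 0 < mu' := by linarith
      have hq : 0 < mu' * lam / (mu' - (1 + 2 * lam)) := by positivity
      refine ⟨mu' * lam / (mu' - (1 + 2 * lam)) + lam, by linarith, by linarith, ?_⟩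
      set q := mu' * lam / (mu' - (1 + 2 * lam)) with hqd
      have h2 : q * (mu' - (1 + 2 * lam)) = mu' * lam := by
        rw [hqd, div_mul_cancel₀ _ hd.ne']
      set t := q + lam with htd
      have ht0 : 0 < t := by linarith
      have h3 : t * (1 + 2 * lam) < mu' * (t - (lam - 1)) := by
        have : t * (mu' - (1 + 2 * lam)) = mu' * lam + lam * (mu' - (1 + 2 * lam)) := by
          rw [htd, add_mul, h2]
        nlinarith
      calc t * (lam + t * (1 + 2 * lam)) ≤ t * ((1 + t) * (1 + 2 * lam)) := by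
            gcongr; nlinarith
        _ = (1 + t) * (t * (1 + 2 * lam)) := by ring
        _ < (1 + t) * (mu' * (t - (lam - 1))) := by gcongr
        _ = _ := by ring
    · obtain ⟨t, ht, htl, h1⟩ := hall ((mu + mu') / 2) (by linarith)
      refine ⟨t, ht, htl, lt_of_le_of_lt h1 ?_⟩
      have h3 : 0 < (1 + t) * (t - (lam - 1)) := mul_pos (by linarith) (by linarith)
      gcongr
      linarith
  obtain ⟨w, hw, hwΓ, hwn⟩ := exists_exact hlam h Γ ht htl h1
  refine ⟨w, hw, hwn, fun g hg => ?_⟩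
  rw [hwΓ g hg, sub_self, norm_zero]
  positivity

end Pool.Agent.DualAP
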