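import Pool.Agent.DualAP.Param

open scoped ENNReal

namespace Pool.Agent.DualAP

variable {𝕜 : Type*} [RCLike 𝕜] {E : Type*} [NormedAddCommGroup E] [NormedSpace 𝕜 E]

/-- If `E` contains complemented copies of all `ℓ_p^n(E)`, then the dual inherits the
approximation property of the renormings. -/
theorem amplify_lp (p : ℝ≥0∞) [Fact (1 ≤ p)] (hp : p ≠ 2) {lam κ : ℝ} (hlam : 1 ≤ lam)
    (hκ : 1 ≤ κ)
    (hE : ∀ (n : ℕ) (κ' : ℝ), κ < κ' →
      ∃ (j : PiLp p (fun _ : Fin n => E) →L[𝕜] E) (P : E →L[𝕜] PiLp p (fun _ : Fin n => E)),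
        ‖j‖ * ‖P‖ ≤ κ' ∧ ∀ y, P (j y) = y)
    (h : RenormedAP 𝕜 E lam) : HasAP 𝕜 (StrongDual 𝕜 E) (κ * lam) := by
  refine amplify hlam h hκ fun κ' hκ' δ hδ => ?_
  obtain ⟨α, A, B, b, ρ, hP, hρ0, hρ1⟩ := exists_params (𝕜 := 𝕜) (E := E) p hp
  obtain ⟨m, hm⟩ := exists_pow_lt_of_lt_one hδ hρ1
  have hκ'0 : 0 ≤ κ' := by linarith
  obtain ⟨j, P, hjP, hPj⟩ := hE (Fintype.card (Fin m → Fin 3)) κ' hκ'
  -- reindexing
  let e : PiLp p (fun _ : Fin (Fintype.card (Fin m → Fin 3)) => E) ≃ₗᵢ[𝕜]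
      PiLp p (fun _ : (Fin m → Fin 3) => E) :=
    LinearIsometryEquiv.piLpCongrLeft p 𝕜 E (Fintype.equivFin (Fin m → Fin 3)).symm
  -- normalization
  obtain ⟨j', P', hj', hP', hPj'⟩ : ∃ (j' : PiLp p (fun _ : (Fin m → Fin 3) => E) →L[𝕜] E)
      (P' : E →L[𝕜] PiLp p (fun _ : (Fin m → Fin 3) => E)), ‖j'‖ ≤ 1 ∧ ‖P'‖ ≤ κ' ∧
      ∀ y, P' (j' y) = y := by
    rcases eq_or_ne (‖j‖) 0 with h0 | h0
    · have hj0 : j = 0 := by simpa using h0
      have hy : ∀ y : PiLp p (fun _ : (Fin m → Fin 3) => E), y = 0 := by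
        intro y
        have h1 := hPj (e.symm y)
        rw [hj0] at h1
        simp only [zero_apply, map_zero] at h1
        have h2 := congrArg e h1
        rw [map_zero, LinearIsometryEquiv.apply_symm_apply] at h2
        exact h2.symm
      refine ⟨0, 0, by simp, by simpa using hκ'0, fun y => ?_⟩
      rw [hy y]; simp
    · have hjpos : 0 < ‖j‖ := lt_of_le_of_ne (norm_nonneg _) (Ne.symm h0)
      refine ⟨(((‖j‖⁻¹ : ℝ) : 𝕜) • j).comp (e.symm : _ →L[𝕜] _),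
        (e : _ →L[𝕜] _).comp (((‖j‖ : ℝ) : 𝕜) • P), ?_, ?_, ?_⟩
      · refine ContinuousLinearMap.opNorm_le_bound _ zero_le_one fun y => ?_
        have h1 : ‖(((‖j‖⁻¹ : ℝ) : 𝕜) • j) (e.symm y)‖ = ‖j‖⁻¹ * ‖j (e.symm y)‖ := by
          rw [smul_apply, norm_smul, RCLike.norm_ofReal, abs_of_pos (inv_pos.mpr hjpos)]
        have h2 : ‖j (e.symm y)‖ ≤ ‖j‖ * ‖y‖ := by
          have := j.le_opNorm (e.symm y)
          rwa [LinearIsometryEquiv.norm_map] at this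
        calc _ = ‖j‖⁻¹ * ‖j (e.symm y)‖ := h1
          _ ≤ ‖j‖⁻¹ * (‖j‖ * ‖y‖) := by gcongr
          _ = 1 * ‖y‖ := by field_simp
      · refine ContinuousLinearMap.opNorm_le_bound _ hκ'0 fun x => ?_
        have h1 : ‖e ((((‖j‖ : ℝ) : 𝕜) • P) x)‖ = ‖j‖ * ‖P x‖ := by
          rw [LinearIsometryEquiv.norm_map, smul_apply, norm_smul, RCLike.norm_ofReal,
            abs_of_pos hjpos]
        calc _ = ‖j‖ * ‖P x‖ := h1
          _ ≤ ‖j‖ * (‖P‖ * ‖x‖) := by gcongr; exact P.le_opNorm x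
          _ = (‖j‖ * ‖P‖) * ‖x‖ := by ring
          _ ≤ κ' * ‖x‖ := by gcongr
      · intro y
        show e ((((‖j‖ : ℝ) : 𝕜) • P) ((((‖j‖⁻¹ : ℝ) : 𝕜) • j) (e.symm y))) = y
        rw [smul_apply, smul_apply, map_smul P, hPj, smul_smul]
        have h1 : ((‖j‖ : ℝ) : 𝕜) * ((‖j‖⁻¹ : ℝ) : 𝕜) = 1 := by
          rw [← RCLike.ofReal_mul, mul_inv_cancel₀ h0, RCLike.ofReal_one]
        rw [h1, one_smul, LinearIsometryEquiv.apply_symm_apply]
  obtain ⟨d⟩ := exists_ampData p hP m hκ'0 j' P' hj' hP' hPj'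
  refine ⟨Fin m → Fin 3, Fin m → Fin 3, inferInstance, inferInstance, ⟨?_⟩⟩
  exact { d with small := fun i x => (d.small i x).trans (by gcongr) }

end Pool.Agent.DualAP
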