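import Pool.Agent.DualAP.Amplify

open scoped ENNReal

namespace Pool.Agent.DualAP

variable {𝕜 : Type*} [RCLike 𝕜] {E : Type*} [NormedAddCommGroup E] [NormedSpace 𝕜 E]
variable (p : ℝ≥0∞) [Fact (1 ≤ p)] {σ : Type} [Fintype σ]

/-- The `ℓ_p` norm of a finite family of reals. -/
noncomputable def lpn (z : σ → ℝ) : ℝ := ‖(WithLp.toLp p z : PiLp p (fun _ : σ => ℝ))‖

lemma toReal_one_le (hp : p ≠ ∞) : 1 ≤ p.toReal := by
  have h : (1 : ℝ≥0∞) ≤ p := Fact.out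
  exact (ENNReal.toReal_mono hp h)

lemma lpn_top (z : σ → ℝ) : lpn ∞ z = ⨆ s, |z s| := by
  unfold lpn
  rw [PiLp.norm_eq_ciSup]
  simp

lemma lpn_fin (hp : p ≠ ∞) (z : σ → ℝ) :
    lpn p z = (∑ s, |z s| ^ p.toReal) ^ (1 / p.toReal) := by
  unfold lpn
  rw [PiLp.norm_eq_sum (by linarith [toReal_one_le p hp])]
  simp

/-- The vector `(z s • x)` of the `ℓ_p` sum. -/
def vec (𝕜 : Type*) [RCLike 𝕜] [NormedSpace 𝕜 E] (z : σ → ℝ) (x : E) :
    PiLp p (fun _ : σ => E) :=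
  WithLp.toLp p (fun s => (z s : 𝕜) • x)

lemma norm_vec (z : σ → ℝ) (x : E) : ‖vec p 𝕜 z x‖ = lpn p z * ‖x‖ := by
  unfold vec
  rcases eq_or_ne p ∞ with rfl | hp
  · rw [PiLp.norm_eq_ciSup, lpn_top, Real.iSup_mul_of_nonneg (norm_nonneg x)]
    congr 1
    funext s
    simp [norm_smul]
  · have hr := toReal_one_le p hp
    rw [PiLp.norm_eq_sum (by linarith), lpn_fin p hp]
    have h1 : ∀ s ∈ Finset.univ, ‖(WithLp.toLp p (fun s => (z s : 𝕜) • x) :
        PiLp p (fun _ : σ => E)) s‖ ^ p.toReal = |z s| ^ p.toReal * ‖x‖ ^ p.toReal := by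
      intro s _
      rw [← Real.mul_rpow (abs_nonneg _) (norm_nonneg _)]
      simp [norm_smul]
    rw [Finset.sum_congr rfl h1, ← Finset.sum_mul, Real.mul_rpow
      (Finset.sum_nonneg fun s _ => by positivity) (by positivity), ← Real.rpow_mul (norm_nonneg _),
      mul_one_div_cancel (by linarith), Real.rpow_one]

lemma lpn_prod {m : ℕ} (z : Fin m → Fin 3 → ℝ) :
    lpn p (fun s : Fin m → Fin 3 => ∏ k, z k (s k)) ≤ ∏ k, lpn p (z k) := by
  rcases eq_or_ne p ∞ with rfl | hp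
  · rw [lpn_top]
    refine ciSup_le fun s => ?_
    rw [Finset.abs_prod]
    refine Finset.prod_le_prod (fun k _ => abs_nonneg _) fun k _ => ?_
    rw [lpn_top]
    exact le_ciSup (f := fun i => |z k i|) (Set.finite_range _).bddAbove (s k)
  · have hr := toReal_one_le p hp
    rw [lpn_fin p hp]
    have h1 : ∀ s ∈ (Finset.univ : Finset (Fin m → Fin 3)),
        |∏ k, z k (s k)| ^ p.toReal = ∏ k, |z k (s k)| ^ p.toReal := by
      intro s _
      rw [Finset.abs_prod, Real.finsetProd_rpow _ _ (fun k _ => abs_nonneg _)]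
    have h2 : ∑ s : Fin m → Fin 3, ∏ k, |z k (s k)| ^ p.toReal =
        ∏ k, ∑ i, |z k i| ^ p.toReal := by
      rw [Finset.prod_univ_sum, Fintype.piFinset_univ]
    rw [Finset.sum_congr rfl h1, h2,
      ← Real.finsetProd_rpow _ _ (fun k _ => Finset.sum_nonneg fun i _ => by positivity)]
    refine le_of_eq (Finset.prod_congr rfl fun k _ => ?_)
    rw [lpn_fin p hp]

/-- Weighted duality bound for finite exponents. -/
lemma pair_le_fin (hp : p ≠ ∞) (w ν : σ → ℝ) (hw : ∀ s, w s * ν s = |ν s| ^ p.toReal)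
    (hν : ∀ s, ν s ≠ 0) (hsum : ∑ s, |ν s| ^ p.toReal = 1) (y : PiLp p (fun _ : σ => E)) :
    ‖∑ s, (w s : 𝕜) • y s‖ ≤ ‖y‖ := by
  have hr := toReal_one_le p hp
  have h1 : ∀ s, |w s| * ‖y s‖ = |ν s| ^ p.toReal * (‖y s‖ / |ν s|) := by
    intro s
    have h2 : 0 < |ν s| := abs_pos.mpr (hν s)
    have h3 : |w s| * |ν s| = |ν s| ^ p.toReal := by
      rw [← abs_mul, hw s, abs_of_nonneg (by positivity)]
    rw [← h3]
    field_simp
  have h4 := Real.arith_mean_le_rpow_mean Finset.univ (fun s => |ν s| ^ p.toReal)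
    (fun s => ‖y s‖ / |ν s|) (fun s _ => by positivity) hsum (fun s _ => by positivity) hr
  have h5 : ∀ s ∈ Finset.univ, |ν s| ^ p.toReal * (‖y s‖ / |ν s|) ^ p.toReal =
      ‖y s‖ ^ p.toReal := by
    intro s _
    have h2 : 0 < |ν s| := abs_pos.mpr (hν s)
    rw [← Real.mul_rpow (abs_nonneg _) (by positivity), mul_div_cancel₀ _ h2.ne']
  rw [Finset.sum_congr rfl h5] at h4
  calc ‖∑ s, (w s : 𝕜) • y s‖ ≤ ∑ s, ‖(w s : 𝕜) • y s‖ := norm_sum_le _ _
    _ = ∑ s, |ν s| ^ p.toReal * (‖y s‖ / |ν s|) := by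
        refine Finset.sum_congr rfl fun s _ => ?_
        rw [norm_smul, RCLike.norm_ofReal, h1]
    _ ≤ _ := h4
    _ = ‖y‖ := by rw [PiLp.norm_eq_sum (by linarith)]

lemma pair_le_top (w : σ → ℝ) (hsum : ∑ s, |w s| ≤ 1) (y : PiLp ∞ (fun _ : σ => E)) :
    ‖∑ s, (w s : 𝕜) • y s‖ ≤ ‖y‖ := by
  calc ‖∑ s, (w s : 𝕜) • y s‖ ≤ ∑ s, ‖(w s : 𝕜) • y s‖ := norm_sum_le _ _
    _ ≤ ∑ s, |w s| * ‖y‖ := by
        refine Finset.sum_le_sum fun s _ => ?_
        rw [norm_smul, RCLike.norm_ofReal]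
        gcongr
        rw [PiLp.norm_eq_ciSup]
        exact le_ciSup (f := fun i => ‖y i‖) (Set.finite_range _).bddAbove s
    _ = (∑ s, |w s|) * ‖y‖ := by rw [Finset.sum_mul]
    _ ≤ 1 * ‖y‖ := by gcongr
    _ = ‖y‖ := one_mul _

end Pool.Agent.DualAP
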