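import Pool.Agent.DualAP.Data

open scoped ENNReal

namespace Pool.Agent.DualAP

variable {𝕜 : Type*} [RCLike 𝕜] {E : Type*} [NormedAddCommGroup E] [NormedSpace 𝕜 E]

lemma params_top : Params ∞ 𝕜 E 1 1 0 (-1/4) (3/4) := by
  refine ⟨by norm_num, ?_, ?_, ?_⟩
  · intro i
    rw [lpn_top]
    refine ciSup_le fun s => ?_
    unfold nu
    split_ifs <;> norm_num [abs_of_pos]
  · intro i
    rw [lpn_top]
    refine ciSup_le fun s => ?_
    unfold nu
    split_ifs
    · rw [abs_of_pos] <;> norm_num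
    · rw [abs_of_neg] <;> norm_num
  · intro m π y
    refine pair_le_top _ ?_ y
    have h1 : ∀ s ∈ (Finset.univ : Finset (Fin m → Fin 3)),
        |∏ k, wf 1 0 (π k) (s k)| = ∏ k, |wf 1 0 (π k) (s k)| := by
      intro s _
      rw [Finset.abs_prod]
    have h2 : ∑ s : Fin m → Fin 3, ∏ k, |wf 1 0 (π k) (s k)| =
        ∏ k, ∑ i, |wf 1 0 (π k) i| := by
      rw [Finset.prod_univ_sum, Fintype.piFinset_univ]
    rw [Finset.sum_congr rfl h1, h2]
    refine Finset.prod_le_one (fun k _ => Finset.sum_nonneg fun i _ => abs_nonneg _) fun k _ => ?_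
    unfold wf
    generalize π k = l
    fin_cases l <;> simp [Fin.sum_univ_three]

/-- The scalar inequality behind the amplification: this is where `r ≠ 2` is used. -/
lemma exists_shift {r : ℝ} (hr : 1 ≤ r) (hr2 : r ≠ 2) :
    ∃ b : ℝ, |2 + b| ^ r + 2 * |b - 1| ^ r < 2 ^ r + 2 := by
  by_contra hcon
  push Not at hcon
  set φ : ℝ → ℝ := fun b => (2 + b) ^ r + 2 * (1 - b) ^ r with hφ
  have hφ0 : φ 0 = 2 ^ r + 2 := by simp [hφ]
  have hmin : IsLocalMin φ 0 := by
    have hev : ∀ᶠ b : ℝ in nhds 0, b ∈ Set.Ioo (-1 : ℝ) 1 :=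
      isOpen_Ioo.mem_nhds (by constructor <;> norm_num)
    filter_upwards [hev] with b hb
    have h1 := hcon b
    rw [hφ0]
    have h2 : |2 + b| = 2 + b := abs_of_pos (by linarith [hb.1])
    have h3 : |b - 1| = 1 - b := by rw [abs_of_neg (by linarith [hb.2])]; ring
    rw [h2, h3] at h1
    exact h1
  have hder : HasDerivAt φ (1 * r * (2 + 0) ^ (r - 1) + 2 * (-1 * r * (1 - 0) ^ (r - 1))) 0 := by
    refine HasDerivAt.add ?_ (HasDerivAt.const_mul 2 ?_)
    · exact ((hasDerivAt_id (0 : ℝ)).const_add 2).rpow_const (Or.inr hr)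
    · exact ((hasDerivAt_id (0 : ℝ)).const_sub 1).rpow_const (Or.inr hr)
  have h0 := hmin.hasDerivAt_eq_zero hder
  have h1 : r * ((2 : ℝ) ^ (r - 1) - 2) = 0 := by
    have h2 : (1 : ℝ) ^ (r - 1) = 1 := Real.one_rpow _
    simp only [add_zero, sub_zero, h2] at h0
    linarith
  have h3 : (2 : ℝ) ^ (r - 1) = 2 := by
    rcases mul_eq_zero.mp h1 with h | h
    · linarith
    · linarith
  have h4 : r - 1 = 1 := by
    have h5 := congrArg Real.log h3
    rw [Real.log_rpow (by norm_num)] at h5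
    have h6 : Real.log 2 ≠ 0 := (Real.log_pos (by norm_num)).ne'
    exact mul_right_cancel₀ h6 (by linarith)
  exact hr2 (by linarith)

lemma params_fin (p : ℝ≥0∞) [Fact (1 ≤ p)] (hp : p ≠ ∞) (hp2 : p ≠ 2) :
    ∃ α A B b ρ : ℝ, Params p 𝕜 E α A B b ρ ∧ 0 ≤ ρ ∧ ρ < 1 := by
  have hr := toReal_one_le p hp
  set r := p.toReal with hrdef
  have hr0 : 0 < r := by linarith
  have hr2 : r ≠ 2 := by
    intro h
    apply hp2
    rw [← ENNReal.ofReal_toReal hp, ← hrdef, h]
    simp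
  obtain ⟨b, hb⟩ := exists_shift hr hr2
  set S : ℝ := 2 ^ r + 2 with hS
  have hS0 : 0 < S := by positivity
  set q : ℝ := S ^ (1 / r) with hq
  have hq0 : 0 < q := by positivity
  have hqr : q ^ r = S := by
    rw [hq, ← Real.rpow_mul hS0.le, one_div_mul_cancel hr0.ne', Real.rpow_one]
  have h2r : (0 : ℝ) < 2 ^ r := by positivity
  -- sums of powers
  have hsum : ∀ (b' : ℝ) (i : Fin 3), ∑ s, |nu (2 / q) (b' / q) i s| ^ r =
      (|2 + b'| ^ r + 2 * |b' - 1| ^ r) / S := by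
    intro b' i
    have e1 : |2 / q + b' / q| ^ r = |2 + b'| ^ r / S := by
      rw [← add_div, abs_div, abs_of_pos hq0, Real.div_rpow (abs_nonneg _) hq0.le, hqr]
    have e2 : |-(2 / q / 2) + b' / q| ^ r = |b' - 1| ^ r / S := by
      have : -(2 / q / 2) + b' / q = (b' - 1) / q := by field_simp; ring
      rw [this, abs_div, abs_of_pos hq0, Real.div_rpow (abs_nonneg _) hq0.le, hqr]
    unfold nu
    fin_cases i <;> simp [Fin.sum_univ_three, e1, e2] <;> ring
  have hsum0 : ∀ i : Fin 3, ∑ s, |nu (2 / q) 0 i s| ^ r = 1 := by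
    intro i
    have h1 := hsum 0 i
    rw [zero_div] at h1
    rw [h1]
    have : |(2 : ℝ) + 0| ^ r + 2 * |(0 : ℝ) - 1| ^ r = S := by
      simp [hS]
    rw [this, div_self hS0.ne']
  have hnu0 : ∀ i s : Fin 3, nu (2 / q) 0 i s ≠ 0 := by
    intro i s
    unfold nu
    split_ifs
    · simp [hq0.ne']
    · simp [hq0.ne']
  have hw : ∀ i s : Fin 3, wf ((2 / q) ^ r / (2 / q)) (-((1 / q) ^ r / (1 / q))) i s *
      nu (2 / q) 0 i s = |nu (2 / q) 0 i s| ^ r := by
    intro i s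
    unfold wf nu
    split_ifs
    · rw [add_zero, abs_of_pos (by positivity), div_mul_cancel₀ _ (by positivity)]
    · have h1 : -(2 / q / 2) + 0 = -(1 / q) := by field_simp; ring
      rw [h1, abs_neg, abs_of_pos (by positivity), neg_mul_neg, div_mul_cancel₀ _ (by positivity)]
  refine ⟨2 / q, (2 / q) ^ r / (2 / q), -((1 / q) ^ r / (1 / q)), b / q,
    ((|2 + b| ^ r + 2 * |b - 1| ^ r) / S) ^ (1 / r), ⟨?_, ?_, ?_, ?_⟩, by positivity, ?_⟩
  · have e1 : (2 / q) ^ r = 2 ^ r / S := by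
      rw [Real.div_rpow (by norm_num) hq0.le, hqr]
    have e2 : (1 / q) ^ r = 1 / S := by
      rw [Real.div_rpow (by norm_num) hq0.le, hqr, Real.one_rpow]
    rw [e1, e2]
    field_simp
    rw [hS]
    ring
  · intro i
    rw [lpn_fin p hp, ← hrdef, hsum0 i, Real.one_rpow]
  · intro i
    rw [lpn_fin p hp, ← hrdef, hsum b i]
  · intro m π y
    refine pair_le_fin p hp _ (fun s => ∏ k, nu (2 / q) 0 (π k) (s k)) ?_ ?_ ?_ y
    · intro s
      rw [← Finset.prod_mul_distrib, Finset.abs_prod,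
        ← Real.finsetProd_rpow _ _ (fun k _ => abs_nonneg _)]
      exact Finset.prod_congr rfl fun k _ => hw (π k) (s k)
    · intro s
      exact Finset.prod_ne_zero_iff.mpr fun k _ => hnu0 (π k) (s k)
    · have h1 : ∀ s ∈ (Finset.univ : Finset (Fin m → Fin 3)),
          |∏ k, nu (2 / q) 0 (π k) (s k)| ^ p.toReal =
            ∏ k, |nu (2 / q) 0 (π k) (s k)| ^ r := by
        intro s _
        rw [Finset.abs_prod, Real.finsetProd_rpow _ _ (fun k _ => abs_nonneg _)]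
      rw [Finset.sum_congr rfl h1]
      have h2 : ∑ s : Fin m → Fin 3, ∏ k, |nu (2 / q) 0 (π k) (s k)| ^ r =
          ∏ k, ∑ i, |nu (2 / q) 0 (π k) i| ^ r := by
        rw [Finset.prod_univ_sum, Fintype.piFinset_univ]
      rw [h2]
      exact Finset.prod_eq_one fun k _ => hsum0 (π k)
  · have h1 : (|2 + b| ^ r + 2 * |b - 1| ^ r) / S < 1 := by
      rw [div_lt_one hS0]; exact hb
    exact Real.rpow_lt_one (by positivity) h1 (by positivity)

lemma exists_params (p : ℝ≥0∞) [Fact (1 ≤ p)] (hp2 : p ≠ 2) :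
    ∃ α A B b ρ : ℝ, Params p 𝕜 E α A B b ρ ∧ 0 ≤ ρ ∧ ρ < 1 := by
  rcases eq_or_ne p ∞ with rfl | hp
  · exact ⟨1, 1, 0, -1/4, 3/4, params_top, by norm_num, by norm_num⟩
  · exact params_fin p hp hp2

end Pool.Agent.DualAP
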