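import Pool.Agent.DualAP.Select

namespace Pool.Agent.DualAP

variable {𝕜 : Type*} [RCLike 𝕜] {E : Type*} [NormedAddCommGroup E] [NormedSpace 𝕜 E]

lemma clm_smul_norm_le {F G : Type*} [NormedAddCommGroup F] [NormedSpace 𝕜 F]
    [NormedAddCommGroup G] [NormedSpace 𝕜 G] (c : 𝕜) (f : F →L[𝕜] G) :
    ‖c • f‖ ≤ ‖c‖ * ‖f‖ :=
  ContinuousLinearMap.opNorm_le_bound _ (by positivity) fun x => by
    rw [smul_apply, norm_smul, mul_assoc]
    gcongr
    exact f.le_opNorm x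

/-- The adjoint of an operator. -/
noncomputable def adj (v : E →L[𝕜] E) : StrongDual 𝕜 E →L[𝕜] StrongDual 𝕜 E :=
  (ContinuousLinearMap.compL 𝕜 E E 𝕜).flip v

@[simp] lemma adj_apply (v : E →L[𝕜] E) (g : StrongDual 𝕜 E) : adj v g = g.comp v := rfl

lemma adj_norm_le (v : E →L[𝕜] E) : ‖adj v‖ ≤ ‖v‖ := by
  refine ContinuousLinearMap.opNorm_le_bound _ (norm_nonneg v) fun g => ?_
  rw [adj_apply, mul_comm]
  exact g.opNorm_comp_le v

lemma adj_finite (v : E →L[𝕜] E)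
    (hv : FiniteDimensional 𝕜 (LinearMap.range (v : E →ₗ[𝕜] E))) :
    FiniteDimensional 𝕜 (LinearMap.range
      (adj v : StrongDual 𝕜 E →ₗ[𝕜] StrongDual 𝕜 E)) := by
  set R := LinearMap.range (v : E →ₗ[𝕜] E) with hR
  let v₀ : E →L[𝕜] R := v.codRestrict R (fun x => ⟨x, rfl⟩)
  let Φ : (R →ₗ[𝕜] 𝕜) →ₗ[𝕜] StrongDual 𝕜 E :=
    { toFun := fun φ => (LinearMap.toContinuousLinearMap φ).comp v₀
      map_add' := fun a b => by ext x; simp
      map_smul' := fun c a => by ext x; simp }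
  have hle : LinearMap.range (adj v : StrongDual 𝕜 E →ₗ[𝕜] StrongDual 𝕜 E) ≤
      LinearMap.range Φ := by
    rintro _ ⟨g, rfl⟩
    refine ⟨(g : E →ₗ[𝕜] 𝕜).domRestrict R, ?_⟩
    ext x
    rfl
  exact Submodule.finiteDimensional_of_le hle

/-- To get the approximation property of the dual it suffices to nearly fix the vectors of
finite-dimensional subspaces, with adjoints of finite-rank operators. -/
lemma hasAP_of_finite {mu : ℝ} (hmu : 0 < mu)
    (h : ∀ Γ : Submodule 𝕜 (StrongDual 𝕜 E), FiniteDimensional 𝕜 Γ → ∀ mu' : ℝ, mu < mu' →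
      ∀ ε : ℝ, 0 < ε → ∃ v : E →L[𝕜] E,
        FiniteDimensional 𝕜 (LinearMap.range (v : E →ₗ[𝕜] E)) ∧ ‖v‖ ≤ mu' ∧
        ∀ g ∈ Γ, ‖g.comp v - g‖ ≤ ε * ‖g‖) : HasAP 𝕜 (StrongDual 𝕜 E) mu := by
  intro K hK ε hε
  obtain ⟨C, hC1, hC⟩ : ∃ C : ℝ, 1 ≤ C ∧ ∀ g ∈ K, ‖g‖ ≤ C := by
    obtain ⟨C, hC⟩ := hK.isBounded.exists_norm_le
    exact ⟨max 1 C, le_max_left _ _, fun g hg => (hC g hg).trans (le_max_right _ _)⟩
  have hCpos : 0 < C := by linarith
  set δ : ℝ := ε / (3 * (mu + 1)) with hδ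
  have hδpos : 0 < δ := by positivity
  set s : ℝ := ε / (4 * C) with hs
  have hspos : 0 < s := by positivity
  obtain ⟨t, htK, htfin, hcov⟩ := Metric.finite_approx_of_totallyBounded hK.totallyBounded δ hδpos
  have hΓfin : FiniteDimensional 𝕜 (Submodule.span 𝕜 t) :=
    FiniteDimensional.span_of_finite 𝕜 htfin
  obtain ⟨v, hvfin, hvn, hv⟩ := h (Submodule.span 𝕜 t) hΓfin (mu * (1 + s))
    (by nlinarith) s hspos
  have h1s : 0 < 1 + s := by linarith
  have hnc : ‖(((1 + s)⁻¹ : ℝ) : 𝕜)‖ = (1 + s)⁻¹ := by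
    rw [RCLike.norm_ofReal, abs_of_pos (inv_pos.mpr h1s)]
  refine ⟨(((1 + s)⁻¹ : ℝ) : 𝕜) • adj v, ?_, ?_, ?_⟩
  · have hle : LinearMap.range (((((1 + s)⁻¹ : ℝ) : 𝕜) • adj v :
        StrongDual 𝕜 E →L[𝕜] StrongDual 𝕜 E) : StrongDual 𝕜 E →ₗ[𝕜] StrongDual 𝕜 E) ≤
        LinearMap.range (adj v : StrongDual 𝕜 E →ₗ[𝕜] StrongDual 𝕜 E) := by
      rintro _ ⟨g, rfl⟩
      refine ⟨(((1 + s)⁻¹ : ℝ) : 𝕜) • g, ?_⟩
      ext x
      simp
    have := adj_finite v hvfin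
    exact Submodule.finiteDimensional_of_le hle
  · refine (clm_smul_norm_le _ _).trans ?_
    rw [hnc]
    calc (1 + s)⁻¹ * ‖adj v‖ ≤ (1 + s)⁻¹ * (mu * (1 + s)) := by
          gcongr; exact (adj_norm_le v).trans hvn
      _ = mu := by field_simp
  · intro g hg
    have hx2 := hcov hg
    simp only [Set.mem_iUnion] at hx2
    obtain ⟨g₀, hg₀, hd⟩ := hx2
    rw [Metric.mem_ball, dist_eq_norm] at hd
    have hg₀n : ‖g₀‖ ≤ C := hC g₀ (htK hg₀)
    have key := hv g₀ (Submodule.subset_span hg₀)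
    set c : 𝕜 := (((1 + s)⁻¹ : ℝ) : 𝕜) with hc
    have hcle : ‖c‖ ≤ 1 := by
      rw [hnc]; exact inv_le_one_of_one_le₀ (by linarith)
    have e1 : (c • adj v) g - g = c • ((g - g₀).comp v) + c • (g₀.comp v - g₀) +
        (c - 1) • g₀ + (g₀ - g) := by
      ext x
      simp only [smul_apply, sub_apply, add_apply, adj_apply, ContinuousLinearMap.comp_apply,
        smul_eq_mul]
      ring
    have n1 : ‖c • ((g - g₀).comp v)‖ ≤ mu * δ := by
      refine (clm_smul_norm_le _ _).trans ?_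
      calc ‖c‖ * ‖(g - g₀).comp v‖ ≤ (1 + s)⁻¹ * (δ * (mu * (1 + s))) := by
            rw [hnc]
            gcongr
            exact ((g - g₀).opNorm_comp_le v).trans (by gcongr)
        _ = mu * δ := by field_simp
    have n2 : ‖c • (g₀.comp v - g₀)‖ ≤ s * C := by
      refine (clm_smul_norm_le _ _).trans ?_
      calc ‖c‖ * ‖g₀.comp v - g₀‖ ≤ 1 * (s * C) := by
            gcongr
            exact key.trans (by gcongr)
        _ = s * C := one_mul _
    have n3 : ‖(c - 1) • g₀‖ ≤ s * C := by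
      refine (clm_smul_norm_le _ _).trans ?_
      have : ‖c - 1‖ ≤ s := by
        have h2 : c - 1 = (((1 + s)⁻¹ - 1 : ℝ) : 𝕜) := by rw [hc]; push_cast; ring
        rw [h2, RCLike.norm_ofReal]
        have h3 : (1 + s)⁻¹ - 1 = -(s / (1 + s)) := by field_simp; ring
        rw [h3, abs_neg, abs_of_pos (by positivity), div_le_iff₀ h1s]
        nlinarith
      gcongr
    have n4 : ‖g₀ - g‖ ≤ δ := by rw [norm_sub_rev]; exact hd.le
    rw [e1]
    calc ‖c • ((g - g₀).comp v) + c • (g₀.comp v - g₀) + (c - 1) • g₀ + (g₀ - g)‖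
        ≤ ‖c • ((g - g₀).comp v)‖ + ‖c • (g₀.comp v - g₀)‖ + ‖(c - 1) • g₀‖ + ‖g₀ - g‖ :=
          (norm_add_le _ _).trans (add_le_add_left ((norm_add_le _ _).trans
            (add_le_add_left (norm_add_le _ _) _)) _)
      _ ≤ mu * δ + s * C + s * C + δ := by linarith
      _ = (mu + 1) * δ + 2 * (s * C) := by ring
      _ = ε / 3 + ε / 2 := by
          rw [hδ, hs]; field_simp; ring
      _ < ε := by linarith

end Pool.Agent.DualAP
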