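import Pool.Agent.DualAP.Basic

namespace Pool.Agent.DualAP

variable {𝕜 : Type*} [RCLike 𝕜] {E : Type*} [NormedAddCommGroup E] [NormedSpace 𝕜 E]
variable (Γ : Submodule 𝕜 (StrongDual 𝕜 E))

/-- A finite-dimensional space of functionals is the kernel data of a map into `𝕜 ^ n`. -/
lemma exists_coords [FiniteDimensional 𝕜 Γ] :
    ∃ (n : ℕ) (T : E →L[𝕜] (Fin n → 𝕜)), ∀ x : E, T x = 0 ↔ Ann Γ x := by
  have hfg : Γ.FG := Module.Finite.iff_fg.mp inferInstance
  obtain ⟨n, f, hf⟩ := Submodule.fg_iff_exists_fin_generating_family.mp hfg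
  refine ⟨n, ContinuousLinearMap.pi f, fun x => ⟨fun h g hg => ?_, fun h => ?_⟩⟩
  · rw [← hf] at hg
    induction hg using Submodule.span_induction with
    | mem g hg =>
      obtain ⟨i, rfl⟩ := hg
      exact congrFun h i
    | zero => simp
    | add a b _ _ ha hb => rw [add_apply, ha, hb, add_zero]
    | smul c a _ ha => rw [smul_apply, ha, smul_zero]
  · funext i
    exact h (f i) (by rw [← hf]; exact Submodule.subset_span ⟨i, rfl⟩)

/-- A generalized inverse of a finite-rank map. -/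
lemma exists_section {n : ℕ} (T : E →L[𝕜] (Fin n → 𝕜)) :
    ∃ S : (Fin n → 𝕜) →L[𝕜] E, ∀ x, T (S (T x)) = T x := by
  obtain ⟨g, hg⟩ := (T : E →ₗ[𝕜] (Fin n → 𝕜)).rangeRestrict.exists_rightInverse_of_surjective
    (LinearMap.range_eq_top.mpr (T : E →ₗ[𝕜] (Fin n → 𝕜)).surjective_rangeRestrict)
  obtain ⟨S, hS⟩ := LinearMap.exists_extend g
  refine ⟨LinearMap.toContinuousLinearMap S, fun x => ?_⟩
  have h1 : S (T x) = g ((T : E →ₗ[𝕜] (Fin n → 𝕜)).rangeRestrict x) := by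
    have := LinearMap.congr_fun hS ((T : E →ₗ[𝕜] (Fin n → 𝕜)).rangeRestrict x)
    simpa using this
  have h2 : T (g ((T : E →ₗ[𝕜] (Fin n → 𝕜)).rangeRestrict x)) = T x := by
    have := LinearMap.congr_fun hg ((T : E →ₗ[𝕜] (Fin n → 𝕜)).rangeRestrict x)
    simpa using congrArg Subtype.val this
  show T (S (T x)) = T x
  rw [h1, h2]

/-- A finite-rank operator whose adjoint is the identity on `Γ`. -/
lemma exists_interp [FiniteDimensional 𝕜 Γ] :
    ∃ v : E →L[𝕜] E, FiniteDimensional 𝕜 (LinearMap.range (v : E →ₗ[𝕜] E)) ∧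
      ∀ g ∈ Γ, g.comp v = g := by
  obtain ⟨n, T, hT⟩ := exists_coords Γ
  obtain ⟨S, hS⟩ := exists_section T
  refine ⟨S.comp T, ?_, ?_⟩
  · have : LinearMap.range ((S.comp T : E →L[𝕜] E) : E →ₗ[𝕜] E) ≤
        LinearMap.range (S : (Fin n → 𝕜) →ₗ[𝕜] E) := by
      rintro _ ⟨x, rfl⟩
      exact ⟨T x, rfl⟩
    exact Submodule.finiteDimensional_of_le this
  · intro g hg
    ext x
    have h1 : T (S (T x) - x) = 0 := by rw [map_sub, hS, sub_self]
    have h2 := (hT _).mp h1 g hg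
    rw [map_sub, sub_eq_zero] at h2
    exact h2

/-- Compact selection: the unit ball of `E`, seen from `Γ`, is covered by a compact set of
vectors of norm at most `1 + ε`. -/
lemma exists_compact_select [FiniteDimensional 𝕜 Γ] {ε : ℝ} (hε : 0 < ε) :
    ∃ K : Set E, IsCompact K ∧ (∀ y ∈ K, ‖y‖ ≤ 1 + ε) ∧
      ∀ x : E, ‖x‖ ≤ 1 → ∃ y ∈ K, Ann Γ (x - y) := by
  obtain ⟨n, T, hT⟩ := exists_coords Γ
  obtain ⟨S, hS⟩ := exists_section T
  obtain ⟨δ, hδ, hSδ⟩ : ∃ δ : ℝ, 0 < δ ∧ ‖S‖ * δ ≤ ε := by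
    refine ⟨ε / (‖S‖ + 1), by positivity, ?_⟩
    rw [mul_div_assoc', div_le_iff₀ (by positivity)]
    nlinarith [norm_nonneg S]
  have hbdd : Bornology.IsBounded (T '' Metric.closedBall (0 : E) 1) :=
    T.lipschitz.isBounded_image Metric.isBounded_closedBall
  have htb : TotallyBounded (T '' Metric.closedBall (0 : E) 1) :=
    (hbdd.isCompact_closure).totallyBounded.subset subset_closure
  obtain ⟨t, ht, htfin, hcov⟩ := Metric.finite_approx_of_totallyBounded htb δ hδ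
  have hch : ∀ φ ∈ t, ∃ x : E, ‖x‖ ≤ 1 ∧ T x = φ := by
    intro φ hφ
    obtain ⟨x, hx, hx'⟩ := ht hφ
    exact ⟨x, by simpa using hx, hx'⟩
  choose! a ha ha' using hch
  refine ⟨⋃ φ ∈ t, (fun w => a φ + S w) '' Metric.closedBall (0 : Fin n → 𝕜) δ, ?_, ?_, ?_⟩
  · refine htfin.isCompact_biUnion fun φ _ => ?_
    exact (isCompact_closedBall _ _).image (by fun_prop)
  · intro y hy
    simp only [Set.mem_iUnion, Set.mem_image] at hy
    obtain ⟨φ, hφ, w, hw, rfl⟩ := hy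
    have hw' : ‖w‖ ≤ δ := by simpa using hw
    calc ‖a φ + S w‖ ≤ ‖a φ‖ + ‖S w‖ := norm_add_le _ _
      _ ≤ 1 + ‖S‖ * δ := by
          refine add_le_add (ha φ hφ) ((S.le_opNorm w).trans ?_)
          gcongr
      _ ≤ 1 + ε := by linarith
  · intro x hx
    have hx1 : T x ∈ T '' Metric.closedBall (0 : E) 1 :=
      ⟨x, by simpa using hx, rfl⟩
    have hx2 := hcov hx1
    simp only [Set.mem_iUnion] at hx2
    obtain ⟨φ, hφ, hd⟩ := hx2
    refine ⟨a φ + S (T x - φ), ?_, ?_⟩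
    · simp only [Set.mem_iUnion, Set.mem_image]
      refine ⟨φ, hφ, T x - φ, ?_, rfl⟩
      rw [mem_closedBall_zero_iff, ← dist_eq_norm]
      exact (Metric.mem_ball.mp hd).le
    · rw [← hT]
      have h2 := hS (x - a φ)
      rw [map_sub T x (a φ), ha' φ hφ] at h2
      rw [map_sub, map_add, ha' φ hφ, h2]
      abel

end Pool.Agent.DualAP
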